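import Mathlib

/-!
Truncations in `lp` spaces over an arbitrary index set and reflexivity of `lp`-sums (the proofs are
those of the module Pool.Agent.H621R3.WS1, which treats the index set `ℕ`).
-/

set_option autoImplicit false
open Filter Topology
open scoped ENNReal

namespace Pool.Agent.W696.AU

lemma ev_pow {a α β : ℝ} (ha : 0 < a) (hαβ : β < α) (hα : 0 < α) (b c : ℝ) :
    ∀ᶠ N : ℕ in atTop, b * (N : ℝ) ^ β + c ≤ a * (N : ℝ) ^ α := by
  have h1 : Tendsto (fun N : ℕ => (N : ℝ) ^ (-(α - β))) atTop (𝓝 0) :=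
    (tendsto_rpow_neg_atTop (by linarith : 0 < α - β)).comp tendsto_natCast_atTop_atTop
  have h2 : Tendsto (fun N : ℕ => (N : ℝ) ^ (-α)) atTop (𝓝 0) :=
    (tendsto_rpow_neg_atTop hα).comp tendsto_natCast_atTop_atTop
  have h3 : Tendsto (fun N : ℕ => b * (N : ℝ) ^ (-(α - β)) + c * (N : ℝ) ^ (-α)) atTop (𝓝 0) := by
    simpa using (h1.const_mul b).add (h2.const_mul c)
  filter_upwards [h3.eventually (gt_mem_nhds ha), eventually_gt_atTop 0] with N hN hN0
  have hNp : (0 : ℝ) < N := by exact_mod_cast hN0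
  have h4 : (b * (N : ℝ) ^ (-(α - β)) + c * (N : ℝ) ^ (-α)) * (N : ℝ) ^ α
      = b * (N : ℝ) ^ β + c := by
    rw [add_mul, mul_assoc, mul_assoc, ← Real.rpow_add hNp, ← Real.rpow_add hNp]
    simp
  rw [← h4]
  exact mul_le_mul_of_nonneg_right hN.le (Real.rpow_nonneg hNp.le _)

section Gen

variable {ι : Type} [DecidableEq ι] {E : ι → Type} [∀ i, NormedAddCommGroup (E i)] [∀ i, NormedSpace ℝ (E i)]
variable {p : ℝ≥0∞} [hp1 : Fact (1 ≤ p)]

variable (E p) in
/-- truncation to a finite set of coordinates -/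
noncomputable def T (s : Finset ι) : lp E p →L[ℝ] lp E p :=
  ∑ i ∈ s, (lp.singleContinuousLinearMap ℝ E p i).comp (lp.evalCLM ℝ E p i)

lemma T_apply (s : Finset ι) (f : lp E p) : T E p s f = ∑ i ∈ s, lp.single p i (f i) := by
  simp only [T, _root_.sum_apply]
  rfl

lemma T_coe (s : Finset ι) (f : lp E p) (i : ι) : (T E p s f) i = if i ∈ s then f i else 0 := by
  rw [T_apply]
  simp only [lp.coeFn_sum, lp.coeFn_single, Finset.sum_apply, Finset.sum_pi_single]

lemma T_T (s t : Finset ι) (f : lp E p) : T E p s (T E p t f) = T E p (s ∩ t) f := by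
  apply lp.ext
  funext i
  rw [T_coe, T_coe, T_coe]
  by_cases h1 : i ∈ s <;> by_cases h2 : i ∈ t <;> simp [h1, h2]

lemma toReal_pos (hp : p ≠ ∞) : 0 < p.toReal :=
  ENNReal.toReal_pos (zero_lt_one.trans_le hp1.out).ne' hp

lemma T_pow (hp : p ≠ ∞) (s : Finset ι) (f : lp E p) :
    ‖T E p s f‖ ^ p.toReal = ∑ i ∈ s, ‖f i‖ ^ p.toReal := by
  rw [T_apply]
  exact lp.norm_sum_single (toReal_pos hp) (fun i => f i) s

lemma T_split (hp : p ≠ ∞) (s : Finset ι) (f : lp E p) :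
    ‖f‖ ^ p.toReal = ‖T E p s f‖ ^ p.toReal + ‖f - T E p s f‖ ^ p.toReal := by
  have h := lp.norm_compl_sum_single (toReal_pos hp) f s
  rw [← T_apply] at h
  rw [h, T_pow hp]
  ring

lemma T_le (hp : p ≠ ∞) (s : Finset ι) (f : lp E p) : ‖T E p s f‖ ≤ ‖f‖ := by
  have h := T_split hp s f
  have h2 : 0 ≤ ‖f - T E p s f‖ ^ p.toReal := Real.rpow_nonneg (norm_nonneg _) _
  exact (Real.rpow_le_rpow_iff (norm_nonneg _) (norm_nonneg _) (toReal_pos hp)).1 (by linarith)

lemma Tc_le (hp : p ≠ ∞) (s : Finset ι) (f : lp E p) : ‖f - T E p s f‖ ≤ ‖f‖ := by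
  have h := T_split hp s f
  have h2 : 0 ≤ ‖T E p s f‖ ^ p.toReal := Real.rpow_nonneg (norm_nonneg _) _
  exact (Real.rpow_le_rpow_iff (norm_nonneg _) (norm_nonneg _) (toReal_pos hp)).1 (by linarith)

lemma T_tendsto (hp : p ≠ ∞) (f : lp E p) :
    Tendsto (fun s : Finset ι => T E p s f) atTop (𝓝 f) := by
  have h := lp.hasSum_single hp f
  rw [HasSum] at h
  simpa [T_apply] using h

lemma T_add (hp : p ≠ ∞) (s : Finset ι) (x w : lp E p) (hx : T E p s x = x) (hw : T E p s w = 0) :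
    ‖x + w‖ ^ p.toReal = ‖x‖ ^ p.toReal + ‖w‖ ^ p.toReal := by
  rw [T_split hp s (x + w), map_add, hx, hw]
  simp

lemma func_tail (hp : p ≠ ∞) (h1 : 1 < p.toReal) (g : lp E p →L[ℝ] ℝ) :
    Tendsto (fun s : Finset ι => ‖g - g.comp (T E p s)‖) atTop (𝓝 0) := by
  by_contra hcon
  obtain ⟨δ, hδ, hfr⟩ : ∃ δ : ℝ, 0 < δ ∧ ∀ s₀ : Finset ι, ∃ s, s₀ ⊆ s ∧
      δ < ‖g - g.comp (T E p s)‖ := by
    by_contra h
    push Not at h
    apply hcon
    rw [Metric.tendsto_atTop]
    intro ε hε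
    obtain ⟨s₀, hs⟩ := h (ε / 2) (by positivity)
    refine ⟨s₀, fun s hss => ?_⟩
    have := hs s hss
    rw [Real.dist_eq, sub_zero, abs_of_nonneg (norm_nonneg _)]
    linarith
  have hstep : ∀ s₀ : Finset ι, ∃ (s' : Finset ι) (w : lp E p), s₀ ⊆ s' ∧ T E p s' w = w ∧
      T E p s₀ w = 0 ∧ ‖w‖ ≤ 1 ∧ δ < g w := by
    intro s₀
    obtain ⟨s, hss, hs⟩ := hfr s₀
    obtain ⟨z, hz1, hz⟩ : ∃ z : lp E p, ‖z‖ ≤ 1 ∧ δ < (g - g.comp (T E p s)) z := by
      by_contra h
      push Not at h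
      refine absurd hs (not_lt.2 ?_)
      refine ContinuousLinearMap.opNorm_le_of_unit_norm hδ.le (fun x hx => ?_)
      rw [Real.norm_eq_abs, abs_le]
      constructor
      · have := h (-x) (by rw [norm_neg, hx])
        rw [map_neg] at this
        linarith
      · exact h x hx.le
    set w := z - T E p s z with hw
    have hgw : δ < g w := by
      have : (g - g.comp (T E p s)) z = g w := by simp [hw]
      rwa [this] at hz
    have hlim := (g.continuous.tendsto w).comp (T_tendsto hp w)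
    have hev := hlim.eventually (lt_mem_nhds hgw)
    obtain ⟨s', hs', hs's⟩ := (hev.and (eventually_ge_atTop s)).exists
    have hsub : s₀ ⊆ s' := hss.trans hs's
    refine ⟨s', T E p s' w, hsub, ?_, ?_, ?_, hs'⟩
    · rw [T_T, Finset.inter_self]
    · rw [T_T, Finset.inter_eq_left.2 hsub, hw, map_sub, T_T, Finset.inter_eq_left.2 hss, sub_self]
    · exact (T_le hp _ _).trans ((Tc_le hp _ _).trans hz1)
  have hK : ∀ K : ℕ, ∃ (s : Finset ι) (x : lp E p), T E p s x = x ∧ ‖x‖ ^ p.toReal ≤ K ∧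
      K * δ ≤ g x := by
    intro K
    induction K with
    | zero =>
      refine ⟨∅, 0, by simp, ?_, by simp⟩
      rw [norm_zero, Real.zero_rpow (toReal_pos hp).ne']
      simp
    | succ K ih =>
      obtain ⟨s, x, hx1, hx2, hx3⟩ := ih
      obtain ⟨s', w, hss, hw1, hw2, hw3, hw4⟩ := hstep s
      refine ⟨s', x + w, ?_, ?_, ?_⟩
      · rw [map_add, hw1]
        congr 1
        conv_lhs => rw [← hx1]
        rw [T_T, Finset.inter_eq_right.2 hss, hx1]
      · rw [T_add hp s x w hx1 hw2]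
        have : ‖w‖ ^ p.toReal ≤ 1 := Real.rpow_le_one (norm_nonneg _) hw3 (toReal_pos hp).le
        push_cast
        linarith
      · rw [map_add]
        push_cast
        linarith
  have hN := ev_pow (a := δ) (α := 1) (β := 1 / p.toReal) hδ
    (by rw [div_lt_one (toReal_pos hp)]; exact h1) one_pos ‖g‖ 1
  obtain ⟨N, hN⟩ := hN.exists
  obtain ⟨s, x, -, hx2, hx3⟩ := hK N
  have hx4 : ‖x‖ ≤ (N : ℝ) ^ (1 / p.toReal) := by
    rw [← Real.rpow_le_rpow_iff (norm_nonneg _) (by positivity) (toReal_pos hp),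
      ← Real.rpow_mul (by positivity), one_div_mul_cancel (toReal_pos hp).ne', Real.rpow_one]
    exact hx2
  have hx5 : g x ≤ ‖g‖ * (N : ℝ) ^ (1 / p.toReal) :=
    (le_abs_self _).trans ((g.le_opNorm x).trans (by gcongr))
  rw [Real.rpow_one] at hN
  linarith

theorem lp_reflexive (hp : p ≠ ∞) (h1 : 1 < p.toReal)
    (hE : ∀ i, Function.Surjective (NormedSpace.inclusionInDoubleDual ℝ (E i))) :
    Function.Surjective (NormedSpace.inclusionInDoubleDual ℝ (lp E p)) := by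
  intro Φ
  let D : ∀ n, (E n →L[ℝ] ℝ) →L[ℝ] (lp E p →L[ℝ] ℝ) := fun n =>
    (ContinuousLinearMap.compL ℝ (lp E p) (E n) ℝ).flip (lp.evalCLM ℝ E p n)
  have hDa : ∀ n (ψ : E n →L[ℝ] ℝ) (y : lp E p), D n ψ y = ψ (y n) := fun n ψ y => rfl
  have hch : ∀ n, ∃ x : E n, ∀ ψ : E n →L[ℝ] ℝ, ψ x = Φ (D n ψ) := by
    intro n
    obtain ⟨x, hx⟩ := hE n ((Φ : (lp E p →L[ℝ] ℝ) →L[ℝ] ℝ).comp (D n))
    refine ⟨x, fun ψ => ?_⟩
    have := congrArg (fun F : (E n →L[ℝ] ℝ) →L[ℝ] ℝ => F ψ) hx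
    simpa using this
  choose x hx using hch
  -- functional identity on truncations
  have key : ∀ (s : Finset ι) (g : lp E p →L[ℝ] ℝ),
      Φ (g.comp (T E p s)) = g (∑ i ∈ s, lp.single p i (x i)) := by
    intro s g
    have e1 : g.comp (T E p s) =
        ∑ i ∈ s, D i (g.comp (lp.singleContinuousLinearMap ℝ E p i)) := by
      ext y
      simp only [ContinuousLinearMap.comp_apply, T_apply, map_sum, _root_.sum_apply,
        hDa, lp.singleContinuousLinearMap_apply]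
    rw [e1, map_sum, map_sum]
    refine Finset.sum_congr rfl (fun i _ => ?_)
    rw [← hx i]
    simp
  have hmem : Memℓp x p := by
    refine memℓp_gen' (C := ‖Φ‖ ^ p.toReal) (fun s => ?_)
    rw [← lp.norm_sum_single (toReal_pos hp) x s]
    apply Real.rpow_le_rpow (norm_nonneg _) _ (toReal_pos hp).le
    set v := ∑ i ∈ s, lp.single p i (x i) with hv
    obtain ⟨h, hh1, hh2⟩ := exists_dual_vector'' ℝ v
    have hTv : T E p s v = v := by
      apply lp.ext
      funext j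
      rw [T_coe, hv]
      simp only [lp.coeFn_sum, lp.coeFn_single, Finset.sum_apply, Finset.sum_pi_single]
      by_cases hj : j ∈ s <;> simp [hj]
    have h3 := key s h
    rw [← hv] at h3
    have h4 : ‖h.comp (T E p s)‖ ≤ 1 := by
      refine ContinuousLinearMap.opNorm_le_bound _ zero_le_one (fun y => ?_)
      rw [ContinuousLinearMap.comp_apply]
      calc ‖h (T E p s y)‖ ≤ ‖h‖ * ‖T E p s y‖ := h.le_opNorm _
        _ ≤ 1 * ‖y‖ := by
          apply mul_le_mul hh1 (T_le hp _ _) (norm_nonneg _) zero_le_one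
    calc ‖v‖ = h v := by rw [hh2]; rfl
      _ = Φ (h.comp (T E p s)) := h3.symm
      _ ≤ ‖Φ (h.comp (T E p s))‖ := Real.le_norm_self _
      _ ≤ ‖Φ‖ * ‖h.comp (T E p s)‖ := Φ.le_opNorm _
      _ ≤ ‖Φ‖ := mul_le_of_le_one_right Φ.opNorm_nonneg h4
  refine ⟨⟨x, hmem⟩, ?_⟩
  ext g
  have hxs : ∀ s : Finset ι, ∑ i ∈ s, lp.single p i (x i) = T E p s ⟨x, hmem⟩ := by
    intro s
    rw [T_apply]
  have l1 : Tendsto (fun s : Finset ι => Φ (g.comp (T E p s))) atTop (𝓝 (g ⟨x, hmem⟩)) := by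
    have := (g.continuous.tendsto _).comp (T_tendsto hp (⟨x, hmem⟩ : lp E p))
    refine this.congr (fun s => ?_)
    simp only [Function.comp]
    rw [key, hxs]
  have l2 : Tendsto (fun s : Finset ι => Φ (g.comp (T E p s))) atTop (𝓝 (Φ g)) := by
    rw [tendsto_iff_norm_sub_tendsto_zero]
    have h3 : ∀ s : Finset ι, ‖Φ (g.comp (T E p s)) - Φ g‖ ≤ ‖Φ‖ * ‖g - g.comp (T E p s)‖ := by
      intro s
      rw [norm_sub_rev, ← map_sub]
      exact Φ.le_opNorm _
    refine squeeze_zero (fun s => norm_nonneg _) h3 ?_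
    simpa using (func_tail hp h1 g).const_mul ‖Φ‖
  have := tendsto_nhds_unique l1 l2
  simpa using this

end Gen

end Pool.Agent.W696.AU
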