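import Mathlib
import Pool.Agent.W696.AU.LpR

/-!
Gluing of maps which are good on balls to a coarse Lipschitz embedding into an `ℓ₂`-sum. (The
radial partition of unity is the one of the module Pool.Agent.H621R3.WS3.)
-/
set_option autoImplicit false
open Filter Topology
open scoped ENNReal

namespace Pool.Agent.W696.AU

/-- radial partition functions -/
noncomputable def rho (n : ℕ) (r : ℝ) : ℝ :=
  max 0 (min 1 (min (2 * r / 2 ^ n - 1) (2 - r / 2 ^ (n + 1))))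

lemma rho_nonneg (n : ℕ) (r : ℝ) : 0 ≤ rho n r := le_max_left _ _

lemma rho_le_one (n : ℕ) (r : ℝ) : rho n r ≤ 1 := max_le zero_le_one (min_le_left _ _)

lemma rho_one (n : ℕ) (r : ℝ) (h1 : 2 ^ n ≤ r) (h2 : r ≤ 2 ^ (n + 1)) : rho n r = 1 := by
  have hp : (0 : ℝ) < 2 ^ n := by positivity
  have e1 : 1 ≤ r / 2 ^ n := by rwa [le_div_iff₀ hp, one_mul]
  have e2 : r / 2 ^ (n + 1) ≤ 1 := by rwa [div_le_one (by positivity)]
  have e3 : 1 ≤ 2 * r / 2 ^ n - 1 := by rw [mul_div_assoc]; linarith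
  have e4 : 1 ≤ 2 - r / 2 ^ (n + 1) := by linarith
  rw [rho, min_eq_left (le_min e3 e4), max_eq_right zero_le_one]

lemma rho_zero_left (n : ℕ) (r : ℝ) (h : 2 * r ≤ 2 ^ n) : rho n r = 0 := by
  have hp : (0 : ℝ) < 2 ^ n := by positivity
  have e1 : 2 * r / 2 ^ n ≤ 1 := by rwa [div_le_one hp]
  rw [rho, max_eq_left]
  exact (min_le_right _ _).trans ((min_le_left _ _).trans (by linarith))

lemma rho_zero_right (n : ℕ) (r : ℝ) (h : 2 ^ (n + 2) ≤ r) : rho n r = 0 := by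
  have e1 : 2 ≤ r / 2 ^ (n + 1) := by
    rw [le_div_iff₀ (by positivity)]
    calc (2 : ℝ) * 2 ^ (n + 1) = 2 ^ (n + 2) := by ring
      _ ≤ r := h
  rw [rho, max_eq_left]
  exact (min_le_right _ _).trans ((min_le_right _ _).trans (by linarith))

lemma rho_lip (n : ℕ) (r t : ℝ) : |rho n r - rho n t| ≤ 2 / 2 ^ n * |r - t| := by
  have hp : (0 : ℝ) < 2 ^ n := by positivity
  unfold rho
  have h0 : (0 : ℝ) ≤ 2 / 2 ^ n * |r - t| := by positivity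
  refine (abs_max_sub_max_le_max _ _ _ _).trans (max_le (by simp [h0]) ?_)
  refine (abs_min_sub_min_le_max _ _ _ _).trans (max_le (by simp [h0]) ?_)
  refine (abs_min_sub_min_le_max _ _ _ _).trans (max_le ?_ ?_)
  · rw [show 2 * r / 2 ^ n - 1 - (2 * t / 2 ^ n - 1) = 2 / 2 ^ n * (r - t) by ring, abs_mul,
      abs_of_nonneg (by positivity : (0 : ℝ) ≤ 2 / 2 ^ n)]
  · rw [show 2 - r / 2 ^ (n + 1) - (2 - t / 2 ^ (n + 1)) = -(1 / 2 ^ (n + 1) * (r - t)) by ring,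
      abs_neg, abs_mul, abs_of_nonneg (by positivity : (0 : ℝ) ≤ 1 / 2 ^ (n + 1))]
    apply mul_le_mul_of_nonneg_right _ (abs_nonneg _)
    rw [div_le_div_iff₀ (by positivity) hp, pow_succ]
    linarith

lemma rho_supp (r : ℝ) : ∃ k : ℕ, ∀ n, rho n r ≠ 0 → k ≤ n ∧ n ≤ k + 2 := by
  classical
  have hex : ∃ k : ℕ, r < 2 ^ (k + 2) := by
    obtain ⟨k, hk⟩ := pow_unbounded_of_one_lt r (one_lt_two)
    exact ⟨k, hk.trans_le (pow_le_pow_right₀ one_le_two (by omega))⟩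
  refine ⟨Nat.find hex, fun n hn => ?_⟩
  have h1 : r < 2 ^ (n + 2) := by
    by_contra h
    exact hn (rho_zero_right n r (not_lt.1 h))
  have h2 : (2 : ℝ) ^ n < 2 * r := by
    by_contra h
    exact hn (rho_zero_left n r (not_lt.1 h))
  have h3 := Nat.find_spec hex
  refine ⟨Nat.find_min' hex h1, ?_⟩
  have h4 : (2 : ℝ) ^ n < 2 ^ (Nat.find hex + 3) := by
    calc (2 : ℝ) ^ n < 2 * r := h2
      _ < 2 * 2 ^ (Nat.find hex + 2) := by linarith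
      _ = 2 ^ (Nat.find hex + 3) := by ring
  have := (pow_lt_pow_iff_right₀ (one_lt_two : (1 : ℝ) < 2)).1 h4
  omega

section glue

variable {X : Type} [NormedAddCommGroup X] {E : ℕ → Type} [∀ n, NormedAddCommGroup (E n)]
  [∀ n, NormedSpace ℝ (E n)] (v : E 0) (MM : ∀ n, X → E (n + 1))

/-- the components of the glued map -/
noncomputable def Fc (x : X) : ∀ n, E n
  | 0 => ‖x‖ • v
  | (n + 1) => rho n ‖x‖ • MM n x

lemma Fc_mem (x : X) : Memℓp (Fc v MM x) 2 := by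
  obtain ⟨k, hk⟩ := rho_supp ‖x‖
  have h0 : Memℓp (Fc v MM x) 0 := by
    apply memℓp_zero
    refine (Set.finite_Iic (k + 3)).subset (fun n hn => ?_)
    rw [Set.mem_ofPred_eq] at hn
    rw [Set.mem_Iic]
    cases n with
    | zero => omega
    | succ n =>
      have h1 : rho n ‖x‖ ≠ 0 := by
        intro h
        apply hn
        simp [Fc, h]
      have := (hk n h1).2
      omega
  exact h0.of_exponent_ge zero_le

/-- the glued map -/
noncomputable def FF (x : X) : lp E 2 := ⟨Fc v MM x, Fc_mem v MM x⟩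

lemma FF_zero (x : X) : (FF v MM x) 0 = ‖x‖ • v := rfl

lemma FF_succ (x : X) (n : ℕ) : (FF v MM x) (n + 1) = rho n ‖x‖ • MM n x := rfl

lemma norm_le_sum' (z : lp E 2) (A : Finset ℕ) (h : ∀ n, n ∉ A → z n = 0) :
    ‖z‖ ≤ ∑ n ∈ A, ‖z n‖ := by
  have e : z = T E 2 A z := by
    apply lp.ext
    funext n
    rw [T_coe]
    by_cases hn : n ∈ A
    · simp [hn]
    · simp [hn, h n hn]
  conv_lhs => rw [e, T_apply]
  refine (norm_sum_le _ _).trans (Finset.sum_le_sum fun n _ => ?_)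
  rw [lp.norm_single (by norm_num)]

variable {v} {MM}

lemma comp_zero (hv : ‖v‖ = 1) (x y : X) :
    ‖(FF v MM x - FF v MM y) 0‖ = |‖x‖ - ‖y‖| := by
  rw [lp.coeFn_sub, Pi.sub_apply, FF_zero, FF_zero, ← sub_smul, norm_smul, hv, mul_one,
    Real.norm_eq_abs]

variable {C D : ℝ}

lemma MM_le (h0 : ∀ n, MM n 0 = 0)
    (h1 : ∀ n x y, ‖x‖ ≤ 2 ^ (n + 2) → ‖y‖ ≤ 2 ^ (n + 2) → ‖MM n x - MM n y‖ ≤ C * (‖x - y‖ + 1))
    (n : ℕ) (x : X) (hx : ‖x‖ ≤ 2 ^ (n + 2)) : ‖MM n x‖ ≤ C * (‖x‖ + 1) := by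
  have h2 := h1 n x 0 hx (by rw [norm_zero]; positivity)
  rwa [h0, sub_zero, sub_zero] at h2

lemma comp_succ (hC : 1 ≤ C) (h0 : ∀ n, MM n 0 = 0)
    (h1 : ∀ n x y, ‖x‖ ≤ 2 ^ (n + 2) → ‖y‖ ≤ 2 ^ (n + 2) → ‖MM n x - MM n y‖ ≤ C * (‖x - y‖ + 1))
    (x y : X) (n : ℕ) :
    ‖(FF v MM x - FF v MM y) (n + 1)‖ ≤ 17 * C * ‖x - y‖ + C := by
  wlog hab : ‖y‖ ≤ ‖x‖ generalizing x y
  · have := this y x (not_le.1 hab).le
    rw [norm_sub_rev y x] at this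
    rw [← neg_sub (FF v MM y) (FF v MM x), lp.coeFn_neg, Pi.neg_apply, norm_neg]
    exact this
  rw [lp.coeFn_sub, Pi.sub_apply, FF_succ, FF_succ]
  have hz := norm_nonneg (x - y)
  have h4 : |‖x‖ - ‖y‖| ≤ ‖x - y‖ := abs_norm_sub_norm_le x y
  have hsec : ‖y‖ ≤ 2 ^ (n + 2) → |rho n ‖x‖ - rho n ‖y‖| * ‖MM n y‖ ≤ 16 * C * ‖x - y‖ := by
    intro hy
    have h2 : ‖MM n y‖ ≤ C * 2 ^ (n + 3) := by
      refine (MM_le h0 h1 n y hy).trans ?_
      gcongr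
      have : (1 : ℝ) ≤ 2 ^ (n + 2) := one_le_pow₀ one_le_two
      rw [pow_succ (2 : ℝ) (n + 2)]
      linarith
    have h3 := rho_lip n ‖x‖ ‖y‖
    have h6 : |rho n ‖x‖ - rho n ‖y‖| * ‖MM n y‖ ≤
        (2 / 2 ^ n * ‖x - y‖) * (C * 2 ^ (n + 3)) := by
      apply mul_le_mul _ h2 (norm_nonneg _) (by positivity)
      refine h3.trans ?_
      gcongr
    have h7 : (2 / 2 ^ n * ‖x - y‖) * (C * 2 ^ (n + 3)) = 16 * C * ‖x - y‖ := by
      have : (2 : ℝ) ^ n ≠ 0 := by positivity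
      rw [pow_add]
      field_simp
      ring
    linarith
  rcases le_or_gt ‖x‖ (2 ^ (n + 2)) with hx | hx
  · have e : rho n ‖x‖ • MM n x - rho n ‖y‖ • MM n y =
        rho n ‖x‖ • (MM n x - MM n y) +
          (rho n ‖x‖ - rho n ‖y‖) • MM n y := by
      rw [smul_sub, sub_smul]; abel
    rw [e]
    refine (norm_add_le _ _).trans ?_
    rw [norm_smul, norm_smul, Real.norm_eq_abs, Real.norm_eq_abs, abs_of_nonneg (rho_nonneg _ _)]
    have h5 : rho n ‖x‖ * ‖MM n x - MM n y‖ ≤ 1 * (C * (‖x - y‖ + 1)) :=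
      mul_le_mul (rho_le_one _ _) (h1 n x y hx (hab.trans hx)) (norm_nonneg _) zero_le_one
    have h6 := hsec (hab.trans hx)
    nlinarith
  · have h2 : rho n ‖x‖ = 0 := rho_zero_right _ _ hx.le
    rcases le_or_gt ‖y‖ (2 ^ (n + 2)) with hy | hy
    · have h6 := hsec hy
      rw [h2, zero_sub, abs_neg] at h6
      rw [h2, zero_smul, zero_sub, norm_neg, norm_smul, Real.norm_eq_abs]
      nlinarith
    · have h3 : rho n ‖y‖ = 0 := rho_zero_right _ _ hy.le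
      rw [h2, h3, zero_smul, zero_smul, sub_zero, norm_zero]
      positivity

lemma FF_upper (hC : 1 ≤ C) (hv : ‖v‖ = 1) (h0 : ∀ n, MM n 0 = 0)
    (h1 : ∀ n x y, ‖x‖ ≤ 2 ^ (n + 2) → ‖y‖ ≤ 2 ^ (n + 2) → ‖MM n x - MM n y‖ ≤ C * (‖x - y‖ + 1))
    (x y : X) : ‖FF v MM x - FF v MM y‖ ≤ 119 * C * ‖x - y‖ + 7 * C := by
  obtain ⟨k, hk⟩ := rho_supp ‖x‖
  obtain ⟨l, hl⟩ := rho_supp ‖y‖
  set A : Finset ℕ := {0} ∪ (Finset.Icc (k + 1) (k + 3) ∪ Finset.Icc (l + 1) (l + 3)) with hA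
  have hA0 : ∀ n, n ∉ A → (FF v MM x - FF v MM y) n = 0 := by
    intro n hn
    cases n with
    | zero => exact absurd (by simp [hA]) hn
    | succ n =>
      have hx : rho n ‖x‖ = 0 := by
        by_contra h
        have := hk n h
        apply hn
        simp only [hA, Finset.mem_union, Finset.mem_Icc]
        omega
      have hy : rho n ‖y‖ = 0 := by
        by_contra h
        have := hl n h
        apply hn
        simp only [hA, Finset.mem_union, Finset.mem_Icc]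
        omega
      rw [lp.coeFn_sub, Pi.sub_apply, FF_succ, FF_succ, hx, hy, zero_smul, zero_smul, sub_zero]
  have hcard : A.card ≤ 7 := by
    refine (Finset.card_union_le _ _).trans ?_
    have := Finset.card_union_le (Finset.Icc (k + 1) (k + 3)) (Finset.Icc (l + 1) (l + 3))
    simp only [Nat.card_Icc, Finset.card_singleton] at this ⊢
    omega
  have hz := norm_nonneg (x - y)
  have hterm : ∀ n ∈ A, ‖(FF v MM x - FF v MM y) n‖ ≤ 17 * C * ‖x - y‖ + C := by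
    intro n _
    cases n with
    | zero =>
      rw [comp_zero hv]
      have := abs_norm_sub_norm_le x y
      nlinarith
    | succ n => exact comp_succ hC h0 h1 x y n
  refine (norm_le_sum' _ A hA0).trans ((Finset.sum_le_card_nsmul _ _ _ hterm).trans ?_)
  rw [nsmul_eq_mul]
  have h1 : (A.card : ℝ) ≤ 7 := by exact_mod_cast hcard
  calc (A.card : ℝ) * (17 * C * ‖x - y‖ + C) ≤ 7 * (17 * C * ‖x - y‖ + C) := by
        gcongr
    _ = _ := by ring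

lemma FF_lower (hC : 1 ≤ C) (hD : 1 ≤ D) (hv : ‖v‖ = 1) (h0 : ∀ n, MM n 0 = 0)
    (h1 : ∀ n x y, ‖x‖ ≤ 2 ^ (n + 2) → ‖y‖ ≤ 2 ^ (n + 2) → ‖MM n x - MM n y‖ ≤ C * (‖x - y‖ + 1))
    (h2 : ∀ n x y, ‖x - y‖ ≤ D * ‖MM n x - MM n y‖) (x y : X) :
    ‖x - y‖ ≤ D * (1 + 8 * C) * ‖FF v MM x - FF v MM y‖ + 2 := by
  wlog hab : ‖y‖ ≤ ‖x‖ generalizing x y
  · have := this y x (not_le.1 hab).le
    rwa [norm_sub_rev y x, norm_sub_rev (FF v MM y)] at this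
  have hF0 := norm_nonneg (FF v MM x - FF v MM y)
  rcases lt_or_ge ‖x‖ 1 with hx | hx
  · have := norm_sub_le x y
    have : 0 ≤ D * (1 + 8 * C) * ‖FF v MM x - FF v MM y‖ := by positivity
    linarith
  obtain ⟨n, hn1, hn2⟩ := exists_nat_pow_near hx (one_lt_two)
  have h3 : |‖x‖ - ‖y‖| ≤ ‖FF v MM x - FF v MM y‖ := by
    rw [← comp_zero (MM := MM) hv]
    exact lp.norm_apply_le_norm (by norm_num) _ _
  rw [abs_of_nonneg (sub_nonneg.2 hab)] at h3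
  have h4 : ‖(FF v MM x - FF v MM y) (n + 1)‖ ≤ ‖FF v MM x - FF v MM y‖ :=
    lp.norm_apply_le_norm (by norm_num) _ _
  rw [lp.coeFn_sub, Pi.sub_apply, FF_succ, FF_succ, rho_one n ‖x‖ hn1 hn2.le, one_smul] at h4
  have e : MM n x - MM n y =
      (MM n x - rho n ‖y‖ • MM n y) - (rho n ‖x‖ - rho n ‖y‖) • MM n y := by
    rw [rho_one n ‖x‖ hn1 hn2.le, sub_smul, one_smul]; abel
  have h5 : ‖MM n x - MM n y‖ ≤ ‖FF v MM x - FF v MM y‖ +
      |rho n ‖x‖ - rho n ‖y‖| * ‖MM n y‖ := by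
    rw [e]
    refine (norm_sub_le _ _).trans ?_
    rw [norm_smul, Real.norm_eq_abs]
    linarith
  have hy1 : ‖y‖ ≤ 2 ^ (n + 1) := hab.trans hn2.le
  have h6 : ‖MM n y‖ ≤ C * 2 ^ (n + 2) := by
    refine (MM_le h0 h1 n y (hy1.trans (pow_le_pow_right₀ one_le_two (by omega)))).trans ?_
    gcongr
    have : (1 : ℝ) ≤ 2 ^ (n + 1) := one_le_pow₀ one_le_two
    rw [pow_succ (2 : ℝ) (n + 1)]
    linarith
  have h7 := rho_lip n ‖x‖ ‖y‖
  rw [abs_of_nonneg (sub_nonneg.2 hab)] at h7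
  have h8 : |rho n ‖x‖ - rho n ‖y‖| * ‖MM n y‖ ≤
      (2 / 2 ^ n * (‖x‖ - ‖y‖)) * (C * 2 ^ (n + 2)) := by
    apply mul_le_mul h7 h6 (norm_nonneg _)
    have := sub_nonneg.2 hab
    positivity
  have h9 : (2 / 2 ^ n * (‖x‖ - ‖y‖)) * (C * 2 ^ (n + 2)) = 8 * C * (‖x‖ - ‖y‖) := by
    have : (2 : ℝ) ^ n ≠ 0 := by positivity
    rw [pow_add]
    field_simp
    ring
  have h10 : ‖MM n x - MM n y‖ ≤ (1 + 8 * C) * ‖FF v MM x - FF v MM y‖ := by
    have h11 : 8 * C * (‖x‖ - ‖y‖) ≤ 8 * C * ‖FF v MM x - FF v MM y‖ := by gcongr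
    linarith
  calc ‖x - y‖ ≤ D * ‖MM n x - MM n y‖ := h2 n x y
    _ ≤ D * ((1 + 8 * C) * ‖FF v MM x - FF v MM y‖) := by gcongr
    _ = D * (1 + 8 * C) * ‖FF v MM x - FF v MM y‖ := by ring
    _ ≤ _ := by linarith

/-- **Gluing.** -/
theorem glue (hC : 1 ≤ C) (hD : 1 ≤ D) (hv : ‖v‖ = 1) (h0 : ∀ n, MM n 0 = 0)
    (h1 : ∀ n x y, ‖x‖ ≤ 2 ^ (n + 2) → ‖y‖ ≤ 2 ^ (n + 2) → ‖MM n x - MM n y‖ ≤ C * (‖x - y‖ + 1))
    (h2 : ∀ n x y, ‖x - y‖ ≤ D * ‖MM n x - MM n y‖) :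
    ∃ f : X → lp E 2, ∃ A B : ℝ, 0 < A ∧ 0 ≤ B ∧
      ∀ x x' : X, ‖x - x'‖ / A - B ≤ ‖f x - f x'‖ ∧ ‖f x - f x'‖ ≤ A * ‖x - x'‖ + B := by
  have hA1 : 1 ≤ D * (1 + 8 * C) := by nlinarith
  refine ⟨FF v MM, 119 * C + D * (1 + 8 * C), 7 * C + 2, by positivity, by positivity,
    fun x y => ⟨?_, ?_⟩⟩
  · have h3 := FF_lower hC hD hv h0 h1 h2 x y
    have hF := norm_nonneg (FF v MM x - FF v MM y)
    rw [sub_le_iff_le_add, div_le_iff₀ (by positivity)]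
    calc ‖x - y‖ ≤ D * (1 + 8 * C) * ‖FF v MM x - FF v MM y‖ + 2 := h3
      _ ≤ (119 * C + D * (1 + 8 * C)) * ‖FF v MM x - FF v MM y‖ +
            (7 * C + 2) * (119 * C + D * (1 + 8 * C)) := by
          have h4 : 0 ≤ 119 * C * ‖FF v MM x - FF v MM y‖ := by positivity
          nlinarith
      _ = _ := by ring
  · have h3 := FF_upper hC hv h0 h1 x y
    have hz := norm_nonneg (x - y)
    have : 0 ≤ D * (1 + 8 * C) * ‖x - y‖ := by positivity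
    nlinarith

end glue

end Pool.Agent.W696.AU
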