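import Mathlib

/-!
The cut-off functions `ψ`.
-/
set_option autoImplicit false
open Finset

namespace Pool.Agent.W696.AU

/-- the cut-off function at scale `λ = 2^i` and centre `m λ / 8` -/
noncomputable def psi (i m : ℤ) (a r : ℝ) : ℝ :=
  max 0 (min (min ((2 : ℝ) ^ i - |a - m * ((2 : ℝ) ^ i / 8)|) (r - (2 : ℝ) ^ i))
    (16 * (2 : ℝ) ^ i - r))

lemma psi_nonneg (i m : ℤ) (a r : ℝ) : 0 ≤ psi i m a r := le_max_left _ _

lemma psi_le (i m : ℤ) (a : ℝ) {r : ℝ} (hr : 0 ≤ r) : psi i m a r ≤ r := by
  unfold psi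
  have h : (0 : ℝ) < (2 : ℝ) ^ i := by positivity
  refine max_le hr ((min_le_left _ _).trans ((min_le_right _ _).trans ?_))
  linarith

lemma psi_lip (i m : ℤ) (a a' r r' : ℝ) :
    |psi i m a r - psi i m a' r'| ≤ max |a - a'| |r - r'| := by
  unfold psi
  refine (abs_max_sub_max_le_max _ _ _ _).trans ?_
  rw [sub_self, abs_zero]
  refine max_le ((abs_nonneg (a - a')).trans (le_max_left _ _)) ?_
  refine (abs_min_sub_min_le_max _ _ _ _).trans (max_le ?_ ?_)
  · refine (abs_min_sub_min_le_max _ _ _ _).trans (max_le_max ?_ ?_)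
    · have h1 := abs_abs_sub_abs_le_abs_sub (a' - m * ((2 : ℝ) ^ i / 8)) (a - m * ((2 : ℝ) ^ i / 8))
      have e1 : (2 : ℝ) ^ i - |a - m * ((2 : ℝ) ^ i / 8)| -
          ((2 : ℝ) ^ i - |a' - m * ((2 : ℝ) ^ i / 8)|) =
          |a' - m * ((2 : ℝ) ^ i / 8)| - |a - m * ((2 : ℝ) ^ i / 8)| := by ring
      rw [e1]
      refine h1.trans (le_of_eq ?_)
      rw [abs_sub_comm a a']
      congr 1
      ring
    · refine le_of_eq ?_
      congr 1
      ring
  · refine le_trans (le_of_eq ?_) (le_max_right _ _)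
    rw [abs_sub_comm r r']
    congr 1
    ring

/-- the indices at which `ψ` can be nonzero -/
noncomputable def psiSupp (a r : ℝ) : Finset (ℤ × ℤ) :=
  (Finset.Icc (Int.log 2 r - 3) (Int.log 2 r)).biUnion fun i =>
    (Finset.Icc (⌊8 * a / (2 : ℝ) ^ i⌋ - 7) (⌊8 * a / (2 : ℝ) ^ i⌋ + 8)).image fun m => (i, m)

lemma card_psiSupp (a r : ℝ) : (psiSupp a r).card ≤ 64 := by
  unfold psiSupp
  refine Finset.card_biUnion_le.trans ?_
  calc ∑ i ∈ Finset.Icc (Int.log 2 r - 3) (Int.log 2 r),
        ((Finset.Icc (⌊8 * a / (2 : ℝ) ^ i⌋ - 7) (⌊8 * a / (2 : ℝ) ^ i⌋ + 8)).image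
          fun m => (i, m)).card
      ≤ ∑ i ∈ Finset.Icc (Int.log 2 r - 3) (Int.log 2 r), 16 := by
        refine Finset.sum_le_sum fun i _ => Finset.card_image_le.trans ?_
        rw [Int.card_Icc]
        have : ⌊8 * a / (2 : ℝ) ^ i⌋ + 8 + 1 - (⌊8 * a / (2 : ℝ) ^ i⌋ - 7) = 16 := by ring
        rw [this]
        norm_num
    _ ≤ 64 := by
        rw [Finset.sum_const, Int.card_Icc]
        have : Int.log 2 r + 1 - (Int.log 2 r - 3) = 4 := by ring
        rw [this]
        decide

lemma psi_eq_zero {i m : ℤ} {a r : ℝ} (h : (i, m) ∉ psiSupp a r) : psi i m a r = 0 := by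
  by_contra hne
  apply h
  have hpos : 0 < psi i m a r := lt_of_le_of_ne (psi_nonneg _ _ _ _) (Ne.symm hne)
  unfold psi at hpos
  have hL : (0 : ℝ) < (2 : ℝ) ^ i := by positivity
  rcases lt_max_iff.1 hpos with h0 | h0
  · exact absurd h0 (lt_irrefl _)
  rw [lt_min_iff, lt_min_iff] at h0
  obtain ⟨⟨h1, h2⟩, h3⟩ := h0
  have hr : 0 < r := by linarith
  have hlog1 : (2 : ℝ) ^ Int.log 2 r ≤ r := by
    have := Int.zpow_log_le_self (b := 2) (R := ℝ) (by norm_num) hr
    simpa using this
  have hlog2 : r < (2 : ℝ) ^ (Int.log 2 r + 1) := by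
    have := Int.lt_zpow_succ_log_self (b := 2) (R := ℝ) (by norm_num) r
    simpa using this
  unfold psiSupp
  rw [Finset.mem_biUnion]
  refine ⟨i, ?_, ?_⟩
  · rw [Finset.mem_Icc]
    constructor
    · have h4 : (2 : ℝ) ^ Int.log 2 r < (2 : ℝ) ^ (i + 4) := by
        refine lt_of_le_of_lt hlog1 ?_
        rw [zpow_add₀ (by norm_num)]
        norm_num
        linarith
      have := (zpow_lt_zpow_iff_right₀ (by norm_num : (1 : ℝ) < 2)).1 h4
      omega
    · have h4 : (2 : ℝ) ^ i < (2 : ℝ) ^ (Int.log 2 r + 1) := by linarith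
      have := (zpow_lt_zpow_iff_right₀ (by norm_num : (1 : ℝ) < 2)).1 h4
      omega
  · rw [Finset.mem_image]
    refine ⟨m, ?_, rfl⟩
    have h4 : |a - m * ((2 : ℝ) ^ i / 8)| < (2 : ℝ) ^ i := by linarith
    rw [abs_lt] at h4
    have h5 : 8 * a / (2 : ℝ) ^ i < m + 8 := by
      rw [div_lt_iff₀ hL]
      linarith
    have h6 : (m : ℝ) - 8 < 8 * a / (2 : ℝ) ^ i := by
      rw [lt_div_iff₀ hL]
      linarith
    rw [Finset.mem_Icc]
    constructor
    · have h7 : (⌊8 * a / (2 : ℝ) ^ i⌋ : ℝ) ≤ 8 * a / (2 : ℝ) ^ i := Int.floor_le _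
      have h8 : (⌊8 * a / (2 : ℝ) ^ i⌋ : ℝ) < m + 8 := by linarith
      have h9 : ⌊8 * a / (2 : ℝ) ^ i⌋ < m + 8 := by exact_mod_cast h8
      omega
    · have h7 : 8 * a / (2 : ℝ) ^ i < ⌊8 * a / (2 : ℝ) ^ i⌋ + 1 := Int.lt_floor_add_one _
      have h8 : (m : ℝ) < ⌊8 * a / (2 : ℝ) ^ i⌋ + 9 := by linarith
      have h9 : m < ⌊8 * a / (2 : ℝ) ^ i⌋ + 9 := by exact_mod_cast h8
      omega

/-- detection -/
lemma psi_detect {a a' r r' : ℝ} (hr : 0 < r) (hrr : r' ≤ r) :
    ∃ i m : ℤ, min |a - a'| r / 64 ≤ |psi i m a r - psi i m a' r'| := by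
  set l := Int.log 2 r - 2 with hl
  set L : ℝ := (2 : ℝ) ^ l with hL
  have hL0 : 0 < L := by positivity
  have hlog1 : 4 * L ≤ r := by
    have := Int.zpow_log_le_self (b := 2) (R := ℝ) (by norm_num) hr
    have e : (4 : ℝ) * L = (2 : ℝ) ^ Int.log 2 r := by
      rw [hL, hl, zpow_sub₀ (by norm_num)]
      norm_num
      ring
    rw [e]
    simpa using this
  have hlog2 : r < 8 * L := by
    have := Int.lt_zpow_succ_log_self (b := 2) (R := ℝ) (by norm_num) r
    have e : (8 : ℝ) * L = (2 : ℝ) ^ (Int.log 2 r + 1) := by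
      rw [hL, hl, zpow_sub₀ (by norm_num), zpow_add₀ (by norm_num)]
      norm_num
      ring
    rw [e]
    simpa using this
  have hmin : min |a - a'| r ≤ r := min_le_right _ _
  -- rounding
  have hround : ∀ (x D : ℝ), 0 < D → ∃ m : ℤ, |x - m * D| ≤ D / 2 := by
    intro x D hD
    refine ⟨round (x / D), ?_⟩
    have h1 := abs_sub_round (x / D)
    have h2 : x - round (x / D) * D = (x / D - round (x / D)) * D := by
      field_simp
    rw [h2, abs_mul, abs_of_pos hD]
    nlinarith
  rcases lt_or_ge r' (2 * L) with hr' | hr'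
  · -- `r'` is much smaller
    obtain ⟨m, hm⟩ := hround a (2 * L / 8) (by positivity)
    refine ⟨l + 1, m, ?_⟩
    have e1 : (2 : ℝ) ^ (l + 1) = 2 * L := by rw [zpow_add₀ (by norm_num), hL]; norm_num; ring
    have h1 : psi (l + 1) m a' r' = 0 := by
      unfold psi
      rw [e1]
      refine max_eq_left ((min_le_left _ _).trans ((min_le_right _ _).trans ?_))
      linarith
    have h2 : 15 / 8 * L ≤ psi (l + 1) m a r := by
      unfold psi
      rw [e1]
      refine le_trans (le_min (le_min ?_ ?_) ?_) (le_max_right _ _)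
      · linarith
      · linarith
      · linarith
    rw [h1, sub_zero, abs_of_nonneg (psi_nonneg _ _ _ _)]
    linarith
  · rcases le_or_gt |a - a'| (L / 4) with hH | hH
    · -- close: a common slope
      set m : ℤ := ⌈8 * max a a' / L⌉ with hm
      have hm1 : max a a' ≤ m * (L / 8) := by
        have h1 : 8 * max a a' / L ≤ m := Int.le_ceil _
        rw [div_le_iff₀ hL0] at h1
        linarith
      have hm2 : m * (L / 8) ≤ max a a' + L / 8 := by
        have h1 : (m : ℝ) < 8 * max a a' / L + 1 := Int.ceil_lt_add_one _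
        have h2 : (m : ℝ) * L < 8 * max a a' + L := by
          have := mul_lt_mul_of_pos_right h1 hL0
          have e : (8 * max a a' / L + 1) * L = 8 * max a a' + L := by field_simp
          linarith
        linarith
      have ha := le_max_left a a'
      have ha' := le_max_right a a'
      have hmx : max a a' ≤ min a a' + L / 4 := by
        rcases le_total a a' with h | h
        · rw [max_eq_right h, min_eq_left h]
          rw [abs_sub_comm, abs_of_nonneg (by linarith)] at hH
          linarith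
        · rw [max_eq_left h, min_eq_right h]
          rw [abs_of_nonneg (by linarith)] at hH
          linarith
      have hmn := min_le_left a a'
      have hmn' := min_le_right a a'
      have hv : ∀ b s : ℝ, b ≤ max a a' → min a a' ≤ b → 2 * L ≤ s → s ≤ r →
          psi l m b s = L - (m * (L / 8) - b) := by
        intro b s hb1 hb2 hs1 hs2
        have e2 : |b - m * (L / 8)| = m * (L / 8) - b := by
          rw [abs_sub_comm, abs_of_nonneg (by linarith)]
        unfold psi
        rw [← hL, e2, max_eq_right, min_eq_left, min_eq_left]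
        · linarith
        · rw [min_eq_left (by linarith)]
          linarith
        · refine le_min (le_min ?_ ?_) ?_
          · linarith
          · linarith
          · linarith
      refine ⟨l, m, ?_⟩
      rw [hv a r ha hmn (by linarith) le_rfl, hv a' r' ha' hmn' hr' hrr]
      have e3 : L - (m * (L / 8) - a) - (L - (m * (L / 8) - a')) = a - a' := by ring
      rw [e3]
      have h1 : min |a - a'| r ≤ |a - a'| := min_le_left _ _
      have h2 := abs_nonneg (a - a')
      linarith
    · -- far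
      obtain ⟨m, hm⟩ := hround a (L / 8) (by positivity)
      refine ⟨l, m, ?_⟩
      have h1 : 15 / 16 * L ≤ psi l m a r := by
        unfold psi
        rw [← hL]
        refine le_trans (le_min (le_min ?_ ?_) ?_) (le_max_right _ _)
        · linarith
        · linarith
        · linarith
      have h2 : psi l m a' r' ≤ 13 / 16 * L := by
        unfold psi
        rw [← hL]
        refine max_le (by positivity) ((min_le_left _ _).trans ((min_le_left _ _).trans ?_))
        have h3 : |a - a'| ≤ |a - m * (L / 8)| + |a' - m * (L / 8)| := by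
          have := abs_sub_le a (m * (L / 8)) a'
          rw [abs_sub_comm (m * (L / 8)) a'] at this
          exact this
        linarith
      have h3 : psi l m a r - psi l m a' r' ≤ |psi l m a r - psi l m a' r'| := le_abs_self _
      linarith

end Pool.Agent.W696.AU
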