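import Mathlib

/-!
Banach spaces of real functions on a set `N` given by a function norm.
-/
set_option autoImplicit false
open scoped ENNReal
open Finset Filter Topology

namespace Pool.Agent.W696.AU

/-- a function norm on the nonnegative functions on `N` -/
structure FNorm (N : Type) where
  /-- the norm of a nonnegative function -/
  ρ : (N → ℝ≥0∞) → ℝ≥0∞
  mono : ∀ {a b : N → ℝ≥0∞}, a ≤ b → ρ a ≤ ρ b
  add_le : ∀ a b : N → ℝ≥0∞, ρ (fun n => a n + b n) ≤ ρ a + ρ b
  smul : ∀ (c : ℝ≥0∞) (a : N → ℝ≥0∞), ρ (fun n => c * a n) = c * ρ a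
  coord : ∀ n : N, ∃ C : ℝ≥0∞, C ≠ ∞ ∧ ∀ a : N → ℝ≥0∞, a n ≤ C * ρ a
  fin_single : ∀ n : N, ∃ C : ℝ≥0∞, C ≠ ∞ ∧ ∀ a : N → ℝ≥0∞, (∀ m, m ≠ n → a m = 0) → ρ a ≤ C * a n
  fatou : ∀ (a : N → ℝ≥0∞) (C : ℝ≥0∞),
    (∀ F : Finset N, ∀ b : N → ℝ≥0∞, (∀ n, b n ≤ a n) → (∀ n, n ∉ F → b n = 0) → ρ b ≤ C) → ρ a ≤ C

namespace FNorm

variable {N : Type} (P : FNorm N)

lemma zero' : P.ρ (fun _ => 0) = 0 := by
  have := P.smul 0 (fun _ => 0)
  simpa using this

/-- functions of finite norm -/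
def sub : Submodule ℝ (N → ℝ) where
  carrier := {x | P.ρ (fun n => ‖x n‖ₑ) ≠ ∞}
  add_mem' := by
    intro x y hx hy
    refine ne_top_of_le_ne_top (ENNReal.add_ne_top.2 ⟨hx, hy⟩) ?_
    exact le_trans (P.mono fun n => enorm_add_le _ _) (P.add_le _ _)
  zero_mem' := by
    show P.ρ (fun n => ‖(0 : ℝ)‖ₑ) ≠ ∞
    simp only [enorm_zero, P.zero']
    exact ENNReal.zero_ne_top
  smul_mem' := by
    intro c x hx
    show P.ρ (fun n => ‖c • x n‖ₑ) ≠ ∞
    simp only [enorm_smul, P.smul]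
    exact ENNReal.mul_ne_top enorm_ne_top hx

/-- the space of real functions of finite norm -/
def Sp : Type := ↥P.sub

noncomputable instance : AddCommGroup P.Sp := inferInstanceAs (AddCommGroup ↥P.sub)
noncomputable instance : Module ℝ P.Sp := inferInstanceAs (Module ℝ ↥P.sub)

variable {P}

/-- the coordinates -/
def Sp.val (x : P.Sp) : N → ℝ := x.1

/-- construct an element -/
def Sp.mk (x : N → ℝ) (hx : P.ρ (fun n => ‖x n‖ₑ) ≠ ∞) : P.Sp := ⟨x, hx⟩

@[simp] lemma Sp.val_mk (x : N → ℝ) (hx : P.ρ (fun n => ‖x n‖ₑ) ≠ ∞) : (Sp.mk x hx).val = x := rfl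
@[simp] lemma Sp.val_add (x y : P.Sp) : (x + y).val = x.val + y.val := rfl
@[simp] lemma Sp.val_sub (x y : P.Sp) : (x - y).val = x.val - y.val := rfl
@[simp] lemma Sp.val_neg (x : P.Sp) : (-x).val = -x.val := rfl
@[simp] lemma Sp.val_zero : (0 : P.Sp).val = 0 := rfl
@[simp] lemma Sp.val_smul (c : ℝ) (x : P.Sp) : (c • x).val = c • x.val := rfl

lemma Sp.ext' {x y : P.Sp} (h : x.val = y.val) : x = y := Subtype.ext h

lemma Sp.prop (x : P.Sp) : P.ρ (fun n => ‖x.val n‖ₑ) ≠ ∞ := x.2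

noncomputable instance : Norm P.Sp := ⟨fun x => (P.ρ (fun n => ‖x.val n‖ₑ)).toReal⟩

lemma Sp.norm_def' (x : P.Sp) : ‖x‖ = (P.ρ (fun n => ‖x.val n‖ₑ)).toReal := rfl

lemma Sp.core : NormedSpace.Core ℝ P.Sp where
  norm_nonneg x := ENNReal.toReal_nonneg
  norm_smul c x := by
    rw [Sp.norm_def', Sp.norm_def']
    simp only [Sp.val_smul, Pi.smul_apply, enorm_smul, P.smul, ENNReal.toReal_mul]
    simp
  norm_triangle x y := by
    rw [Sp.norm_def', Sp.norm_def', Sp.norm_def',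
      ← ENNReal.toReal_add x.prop y.prop]
    refine ENNReal.toReal_mono (ENNReal.add_ne_top.2 ⟨x.prop, y.prop⟩) ?_
    exact le_trans (P.mono fun n => enorm_add_le _ _) (P.add_le _ _)
  norm_eq_zero_iff x := by
    rw [Sp.norm_def']
    constructor
    · intro h
      rw [ENNReal.toReal_eq_zero_iff] at h
      rcases h with h | h
      · apply Sp.ext'
        funext n
        obtain ⟨C, -, hC⟩ := P.coord n
        have h1 := hC (fun n => ‖x.val n‖ₑ)
        rw [h] at h1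
        simpa using h1
      · exact absurd h x.prop
    · rintro rfl
      simp [P.zero']

noncomputable instance : NormedAddCommGroup P.Sp := NormedAddCommGroup.ofCore Sp.core
noncomputable instance : NormedSpace ℝ P.Sp := NormedSpace.ofCore Sp.core

lemma Sp.norm_def (x : P.Sp) : ‖x‖ = (P.ρ (fun n => ‖x.val n‖ₑ)).toReal := rfl

lemma Sp.enorm_eq (x : P.Sp) : ‖x‖ₑ = P.ρ (fun n => ‖x.val n‖ₑ) := by
  rw [← ofReal_norm, Sp.norm_def, ENNReal.ofReal_toReal x.prop]

/-- norms of finitely supported functions -/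
lemma rho_fin_le (F : Finset N) : ∃ C : N → ℝ≥0∞, (∀ n, C n ≠ ∞) ∧ ∀ b : N → ℝ≥0∞,
    (∀ n, n ∉ F → b n = 0) → P.ρ b ≤ ∑ n ∈ F, C n * b n := by
  classical
  choose C hC1 hC2 using P.fin_single
  refine ⟨C, hC1, fun b hb => ?_⟩
  have key : ∀ G : Finset N, P.ρ (fun n => if n ∈ G then b n else 0) ≤ ∑ n ∈ G, C n * b n := by
    intro G
    induction G using Finset.induction_on with
    | empty => simp [P.zero']
    | insert m G hm ih =>
      rw [Finset.sum_insert hm]
      refine le_trans (P.mono (b := fun n => (if n = m then b n else 0) + if n ∈ G then b n else 0)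
        fun n => ?_) ((P.add_le _ _).trans (add_le_add ?_ ih))
      · by_cases h1 : n = m
        · simp [h1]
        · simp [h1]
      · refine (hC2 m _ fun n hn => ?_).trans ?_
        · simp [hn]
        · simp
  refine le_trans (P.mono fun n => ?_) (key F)
  by_cases h : n ∈ F
  · simp [h]
  · simp [hb n h]

instance : CompleteSpace P.Sp := by
  classical
  refine Metric.complete_of_cauchySeq_tendsto fun u hu => ?_
  have h1 : ∀ n, ∃ z, Tendsto (fun m => (u m).val n) atTop (𝓝 z) := fun n => by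
    obtain ⟨C, hC1, hC2⟩ := P.coord n
    refine cauchySeq_tendsto_of_complete (Metric.cauchySeq_iff.2 fun ε hε => ?_)
    obtain ⟨M, hM⟩ := Metric.cauchySeq_iff.1 hu (ε / (C.toReal + 1)) (by positivity)
    refine ⟨M, fun a ha b hb => ?_⟩
    have h2 := hC2 (fun n => ‖(u a - u b).val n‖ₑ)
    rw [← Sp.enorm_eq] at h2
    have h3 := ENNReal.toReal_mono (ENNReal.mul_ne_top hC1 enorm_ne_top) h2
    rw [ENNReal.toReal_mul, toReal_enorm, toReal_enorm] at h3
    rw [Real.dist_eq, ← Real.norm_eq_abs]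
    have h4 := hM a ha b hb
    rw [dist_eq_norm] at h4
    calc ‖(u a).val n - (u b).val n‖ ≤ C.toReal * ‖u a - u b‖ := h3
      _ ≤ (C.toReal + 1) * ‖u a - u b‖ := by gcongr; linarith
      _ < (C.toReal + 1) * (ε / (C.toReal + 1)) := by
          gcongr
      _ = ε := by
          have : C.toReal + 1 ≠ 0 := by positivity
          field_simp
  choose y hy using h1
  have key : ∀ ε : ℝ, 0 < ε → ∃ M, ∀ m ≥ M,
      P.ρ (fun n => ‖y n - (u m).val n‖ₑ) ≤ ENNReal.ofReal ε := by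
    intro ε hε
    obtain ⟨M, hM⟩ := Metric.cauchySeq_iff.1 hu ε hε
    refine ⟨M, fun m hm => P.fatou _ _ fun F b hb1 hb2 => ?_⟩
    obtain ⟨C, hC1, hC2⟩ := rho_fin_le (P := P) F
    have h3 : Tendsto (fun k => ENNReal.ofReal ε + ∑ n ∈ F, C n * ‖y n - (u k).val n‖ₑ) atTop
        (𝓝 (ENNReal.ofReal ε + ∑ n ∈ F, C n * 0)) := by
      refine Tendsto.const_add _ (tendsto_finsetSum _ fun n _ => ?_)
      refine ENNReal.Tendsto.const_mul ?_ (Or.inr (hC1 n))
      have h4 : Tendsto (fun k => ‖y n - (u k).val n‖ₑ) atTop (𝓝 ‖y n - y n‖ₑ) :=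
        ((hy n).const_sub _).enorm
      simpa using h4
    simp only [mul_zero, Finset.sum_const_zero, add_zero] at h3
    refine ge_of_tendsto h3 ?_
    filter_upwards [eventually_ge_atTop M] with k hk
    have h5 : ∀ n, b n ≤ ‖(u k - u m).val n‖ₑ + if n ∈ F then ‖y n - (u k).val n‖ₑ else 0 := by
      intro n
      by_cases hn : n ∈ F
      · rw [if_pos hn]
        refine (hb1 n).trans ?_
        have := enorm_add_le ((u k - u m).val n) (y n - (u k).val n)
        simpa using this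
      · rw [hb2 n hn]; exact bot_le
    refine (P.mono h5).trans ((P.add_le _ _).trans (add_le_add ?_ ?_))
    · rw [← Sp.enorm_eq, ← ofReal_norm, ← dist_eq_norm]
      exact ENNReal.ofReal_le_ofReal (hM k hk m hm).le
    · refine (hC2 _ fun n hn => by simp [hn]).trans (Finset.sum_le_sum fun n hn => ?_)
      simp [hn]
  obtain ⟨N1, hN1⟩ := key 1 one_pos
  have hyfin : P.ρ (fun n => ‖y n‖ₑ) ≠ ∞ := by
    refine ne_top_of_le_ne_top (b := ENNReal.ofReal 1 + ‖u N1‖ₑ)
      (ENNReal.add_ne_top.2 ⟨ENNReal.ofReal_ne_top, enorm_ne_top⟩) ?_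
    rw [Sp.enorm_eq]
    refine le_trans (P.mono (b := fun n => ‖y n - (u N1).val n‖ₑ + ‖(u N1).val n‖ₑ)
      fun n => ?_) ((P.add_le _ _).trans (add_le_add (hN1 N1 le_rfl) le_rfl))
    have := enorm_add_le (y n - (u N1).val n) ((u N1).val n)
    simpa using this
  refine ⟨Sp.mk y hyfin, ?_⟩
  rw [Metric.tendsto_atTop]
  intro ε hε
  obtain ⟨M, hM⟩ := key (ε / 2) (by linarith)
  refine ⟨M, fun m hm => ?_⟩
  rw [dist_comm, dist_eq_norm]
  have h4 : ‖Sp.mk y hyfin - u m‖ₑ ≤ ENNReal.ofReal (ε / 2) := by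
    rw [Sp.enorm_eq]
    exact hM m hm
  rw [← ofReal_norm, ENNReal.ofReal_le_ofReal_iff (by linarith)] at h4
  linarith

end FNorm

end Pool.Agent.W696.AU
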