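import Mathlib
import Pool.Agent.W696.AU.FN

/-!
Weighted trees and the associated function norm
`(∑_s (w_s · sup_t ∑_{u ∈ [s,t]} a_u)²)^{1/2}`.
-/
set_option autoImplicit false
open scoped ENNReal
open Finset Filter Topology

namespace Pool.Agent.W696.AU

/-- independent choices in a finite sum of suprema -/
lemma sum_iSup_le {S J : Type} [DecidableEq S] [Nonempty J] (B : ℝ≥0∞) (F : S → J → ℝ≥0∞)
    (A : Finset S) :
    ∀ C : ℝ≥0∞, (∀ φ : S → J, (∑ i ∈ A, F i (φ i)) + C ≤ B) →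
      (∑ i ∈ A, (⨆ j, F i j)) + C ≤ B := by
  induction A using Finset.induction_on with
  | empty => intro C h; simpa using h (fun _ => Classical.arbitrary J)
  | insert a A ha ih =>
    intro C h
    rw [Finset.sum_insert ha, add_comm (⨆ j, F a j), add_assoc, ENNReal.iSup_add, ENNReal.add_iSup]
    refine iSup_le fun j => ih (F a j + C) fun φ => ?_
    have := h (fun i => if i = a then j else φ i)
    rw [Finset.sum_insert ha] at this
    simp only [if_true] at this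
    rw [add_comm (F a j), add_assoc] at this
    refine le_trans (le_of_eq ?_) this
    congr 1
    refine Finset.sum_congr rfl fun i hi => ?_
    rw [if_neg (by rintro rfl; exact ha hi)]

section L2

variable {S : Type}

/-- the `ℓ₂` norm of a nonnegative function -/
noncomputable def L2 (g : S → ℝ≥0∞) : ℝ≥0∞ := (∑' s, (g s) ^ 2) ^ (1 / 2 : ℝ)

lemma sq_half (x : ℝ≥0∞) : (x ^ 2) ^ (1 / 2 : ℝ) = x := by
  rw [← ENNReal.rpow_natCast, ← ENNReal.rpow_mul]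
  norm_num

lemma half_sq (x : ℝ≥0∞) : (x ^ (1 / 2 : ℝ)) ^ 2 = x := by
  rw [← ENNReal.rpow_natCast, ← ENNReal.rpow_mul]
  norm_num

lemma L2_sq (g : S → ℝ≥0∞) : (L2 g) ^ 2 = ∑' s, (g s) ^ 2 := half_sq _

lemma L2_le_iff (g : S → ℝ≥0∞) (C : ℝ≥0∞) : L2 g ≤ C ↔ ∑' s, (g s) ^ 2 ≤ C ^ 2 := by
  constructor
  · intro h
    rw [← L2_sq]
    gcongr
  · intro h
    rw [← sq_half C]
    exact ENNReal.rpow_le_rpow h (by norm_num)

lemma L2_mono {g h : S → ℝ≥0∞} (hgh : g ≤ h) : L2 g ≤ L2 h := by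
  rw [L2_le_iff, L2_sq]
  exact ENNReal.tsum_le_tsum fun s => by gcongr; exact hgh s

lemma le_L2 (g : S → ℝ≥0∞) (s : S) : g s ≤ L2 g := by
  rw [← sq_half (g s)]
  exact ENNReal.rpow_le_rpow (ENNReal.le_tsum s) (by norm_num)

lemma L2_smul (c : ℝ≥0∞) (g : S → ℝ≥0∞) : L2 (fun s => c * g s) = c * L2 g := by
  unfold L2
  simp only [mul_pow]
  rw [ENNReal.tsum_mul_left, ENNReal.mul_rpow_of_nonneg _ _ (by norm_num), sq_half]

lemma L2_add (g h : S → ℝ≥0∞) : L2 (fun s => g s + h s) ≤ L2 g + L2 h := by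
  rw [L2_le_iff, ENNReal.tsum_eq_iSup_sum]
  refine iSup_le fun A => ?_
  have h1 := ENNReal.Lp_add_le A g h (p := 2) (by norm_num)
  have h2 : (∑ s ∈ A, (g s + h s) ^ (2 : ℝ)) ≤
      ((∑ s ∈ A, (g s) ^ (2 : ℝ)) ^ (1 / 2 : ℝ) + (∑ s ∈ A, (h s) ^ (2 : ℝ)) ^ (1 / 2 : ℝ)) ^ 2 := by
    have h3 := pow_le_pow_left₀ (bot_le) h1 2
    rwa [half_sq] at h3
  have e : ∀ x : ℝ≥0∞, x ^ (2 : ℝ) = x ^ 2 := fun x => by
    rw [← ENNReal.rpow_natCast]; norm_num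
  simp only [e] at h2
  refine h2.trans ?_
  gcongr
  · exact ENNReal.rpow_le_rpow (ENNReal.sum_le_tsum A) (by norm_num)
  · exact ENNReal.rpow_le_rpow (ENNReal.sum_le_tsum A) (by norm_num)

end L2

/-- a forest of finite height components, given by the finite sets `dn t = {u : u ≤ t}`, with
weights -/
structure TreeS (N : Type) [DecidableEq N] where
  /-- the elements below `t` -/
  dn : N → Finset N
  refl : ∀ t, t ∈ dn t
  trans : ∀ {u s t}, u ∈ dn s → s ∈ dn t → u ∈ dn t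
  chain : ∀ {u v t}, u ∈ dn t → v ∈ dn t → u ∈ dn v ∨ v ∈ dn u
  antisymm : ∀ {u v}, u ∈ dn v → v ∈ dn u → u = v
  /-- the weights -/
  w : N → ℝ
  w_pos : ∀ s, 0 < w s
  sum_w : ∀ t, ∑ s ∈ dn t, (ENNReal.ofReal (w s)) ^ 2 ≤ 2
  /-- the height of the component -/
  ht : N → ℕ
  ht_eq : ∀ {s t}, s ∈ dn t → ht s = ht t
  card_le : ∀ t, (dn t).card ≤ ht t + 1
  w_ge : ∀ t, 1 ≤ (4 : ℝ≥0∞) ^ (ht t) * (ENNReal.ofReal (w t)) ^ 2

namespace TreeS

variable {N : Type} [DecidableEq N] (𝒯 : TreeS N)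

/-- the segment `[s, t]` -/
def seg (s t : N) : Finset N := (𝒯.dn t).filter fun u => s ∈ 𝒯.dn u

lemma mem_seg {s t u : N} : u ∈ 𝒯.seg s t ↔ u ∈ 𝒯.dn t ∧ s ∈ 𝒯.dn u := by
  unfold seg; rw [Finset.mem_filter]

lemma seg_empty {s t : N} (h : s ∉ 𝒯.dn t) : 𝒯.seg s t = ∅ := by
  rw [Finset.eq_empty_iff_forall_notMem]
  intro u hu
  rw [mem_seg] at hu
  exact h (𝒯.trans hu.2 hu.1)

lemma seg_subset {s t t' : N} (h : s ∈ 𝒯.dn t) : 𝒯.seg t t' ⊆ 𝒯.seg s t' := by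
  intro u hu
  rw [mem_seg] at hu ⊢
  exact ⟨hu.1, 𝒯.trans h hu.2⟩

lemma seg_subset' {s t t' : N} (h : t ∈ 𝒯.dn t') : 𝒯.seg s t ⊆ 𝒯.seg s t' := by
  intro u hu
  rw [mem_seg] at hu ⊢
  exact ⟨𝒯.trans hu.1 h, hu.2⟩

/-- largest sum over segments starting at `s` -/
noncomputable def M (a : N → ℝ≥0∞) (s : N) : ℝ≥0∞ := ⨆ t, ∑ u ∈ 𝒯.seg s t, a u

lemma sum_le_M (a : N → ℝ≥0∞) (s t : N) : ∑ u ∈ 𝒯.seg s t, a u ≤ 𝒯.M a s :=
  le_iSup (fun t => ∑ u ∈ 𝒯.seg s t, a u) t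

lemma M_le {a : N → ℝ≥0∞} {s : N} {C : ℝ≥0∞} (h : ∀ t, ∑ u ∈ 𝒯.seg s t, a u ≤ C) : 𝒯.M a s ≤ C :=
  iSup_le h

lemma M_mono {a b : N → ℝ≥0∞} (h : a ≤ b) (s : N) : 𝒯.M a s ≤ 𝒯.M b s :=
  𝒯.M_le fun t => (Finset.sum_le_sum fun u _ => h u).trans (𝒯.sum_le_M b s t)

lemma M_add (a b : N → ℝ≥0∞) (s : N) : 𝒯.M (fun n => a n + b n) s ≤ 𝒯.M a s + 𝒯.M b s :=
  𝒯.M_le fun t => by
    rw [Finset.sum_add_distrib]
    exact add_le_add (𝒯.sum_le_M a s t) (𝒯.sum_le_M b s t)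

lemma M_smul (c : ℝ≥0∞) (a : N → ℝ≥0∞) (s : N) : 𝒯.M (fun n => c * a n) s = c * 𝒯.M a s := by
  unfold M
  rw [ENNReal.mul_iSup]
  exact iSup_congr fun t => by rw [Finset.mul_sum]

lemma M_anti (a : N → ℝ≥0∞) {s t : N} (h : s ∈ 𝒯.dn t) : 𝒯.M a t ≤ 𝒯.M a s :=
  𝒯.M_le fun v => (Finset.sum_le_sum_of_subset (𝒯.seg_subset h)).trans (𝒯.sum_le_M a s v)

lemma le_M (a : N → ℝ≥0∞) (s : N) : a s ≤ 𝒯.M a s := by
  refine le_trans ?_ (𝒯.sum_le_M a s s)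
  exact Finset.single_le_sum (f := a) (fun _ _ => bot_le)
    (𝒯.mem_seg.2 ⟨𝒯.refl s, 𝒯.refl s⟩)

lemma le_M' (a : N → ℝ≥0∞) {s t : N} (h : s ∈ 𝒯.dn t) : a t ≤ 𝒯.M a s :=
  (𝒯.le_M a t).trans (𝒯.M_anti a h)

lemma M_supp {a : N → ℝ≥0∞} {n : N} (ha : ∀ m, m ≠ n → a m = 0) (s : N) :
    𝒯.M a s ≤ if s ∈ 𝒯.dn n then a n else 0 := by
  refine 𝒯.M_le fun t => ?_
  by_cases h : n ∈ 𝒯.seg s t
  · rw [Finset.sum_eq_single_of_mem n h (fun m _ hm => ha m hm), if_pos (𝒯.mem_seg.1 h).2]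
  · rw [Finset.sum_eq_zero fun m hm => ha m (by rintro rfl; exact h hm)]
    exact bot_le

/-- the function norm of the tree -/
noncomputable def fnorm : FNorm N where
  ρ a := L2 fun s => ENNReal.ofReal (𝒯.w s) * 𝒯.M a s
  mono h := L2_mono fun s => by gcongr; exact 𝒯.M_mono h s
  add_le a b := by
    refine le_trans (L2_mono fun s => ?_) (L2_add _ _)
    rw [← mul_add]
    gcongr
    exact 𝒯.M_add a b s
  smul c a := by
    rw [← L2_smul]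
    congr 1
    funext s
    rw [𝒯.M_smul]
    ring
  coord n := by
    refine ⟨(ENNReal.ofReal (𝒯.w n))⁻¹, ?_, fun a => ?_⟩
    · simp [𝒯.w_pos n]
    · have h1 := le_L2 (fun s => ENNReal.ofReal (𝒯.w s) * 𝒯.M a s) n
      have h0 : ENNReal.ofReal (𝒯.w n) ≠ 0 := by simp [𝒯.w_pos n]
      calc a n ≤ 𝒯.M a n := 𝒯.le_M a n
        _ = (ENNReal.ofReal (𝒯.w n))⁻¹ * (ENNReal.ofReal (𝒯.w n) * 𝒯.M a n) := by
            rw [← mul_assoc, ENNReal.inv_mul_cancel h0 ENNReal.ofReal_ne_top, one_mul]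
        _ ≤ _ := by gcongr
  fin_single n := by
    refine ⟨2, by norm_num, fun a ha => ?_⟩
    rw [L2_le_iff]
    calc ∑' s, (ENNReal.ofReal (𝒯.w s) * 𝒯.M a s) ^ 2
        ≤ ∑' s, if s ∈ 𝒯.dn n then (ENNReal.ofReal (𝒯.w s)) ^ 2 * (a n) ^ 2 else 0 := by
          refine ENNReal.tsum_le_tsum fun s => ?_
          have h1 := 𝒯.M_supp ha s
          by_cases h : s ∈ 𝒯.dn n
          · rw [if_pos h] at h1 ⊢
            rw [mul_pow]
            gcongr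
          · rw [if_neg h] at h1 ⊢
            rw [le_antisymm h1 bot_le, mul_zero]
            exact (zero_pow two_ne_zero).le
      _ = ∑ s ∈ 𝒯.dn n, (ENNReal.ofReal (𝒯.w s)) ^ 2 * (a n) ^ 2 := by
          rw [tsum_eq_sum (s := 𝒯.dn n) fun s hs => if_neg hs]
          exact Finset.sum_congr rfl fun s hs => if_pos hs
      _ ≤ 2 * (a n) ^ 2 := by
          rw [← Finset.sum_mul]
          gcongr
          exact 𝒯.sum_w n
      _ ≤ (2 * a n) ^ 2 := by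
          rw [mul_pow]
          gcongr
          norm_num
  fatou a C h := by
    classical
    rw [L2_le_iff, ENNReal.tsum_eq_iSup_sum]
    refine iSup_le fun A => ?_
    rcases isEmpty_or_nonempty N with hN | hN
    · rw [Finset.eq_empty_of_isEmpty A, Finset.sum_empty]; exact bot_le
    have key := sum_iSup_le (C ^ 2)
      (fun s t => (ENNReal.ofReal (𝒯.w s) * ∑ u ∈ 𝒯.seg s t, a u) ^ 2) A 0 ?_
    · rw [add_zero] at key
      refine le_trans (Finset.sum_le_sum fun s _ => ?_) key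
      unfold M
      rw [ENNReal.mul_iSup, ENNReal.iSup_pow]
    · intro φ
      rw [add_zero]
      set F : Finset N := A.biUnion fun s => 𝒯.seg s (φ s) with hF
      set b : N → ℝ≥0∞ := fun n => if n ∈ F then a n else 0 with hb
      have h1 := h F b (fun n => by simp only [hb]; split_ifs <;> simp)
        (fun n hn => by simp only [hb, if_neg hn])
      rw [L2_le_iff] at h1
      refine le_trans ?_ ((ENNReal.sum_le_tsum A).trans h1)
      refine Finset.sum_le_sum fun s hs => ?_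
      gcongr
      refine le_trans (le_of_eq ?_) (𝒯.sum_le_M b s (φ s))
      refine Finset.sum_congr rfl fun u hu => ?_
      simp only [hb]
      rw [if_pos (Finset.mem_biUnion.2 ⟨s, hs, hu⟩)]

/-- the Banach space of the tree -/
abbrev X : Type := 𝒯.fnorm.Sp

/-- the median lemma -/
lemma median (a : N → ℝ≥0∞) (s t' : N) (h : s ∈ 𝒯.dn t') :
    ∃ t ∈ 𝒯.seg s t', ∑ u ∈ 𝒯.seg s t', a u ≤ 2 * ∑ u ∈ 𝒯.seg s t, a u ∧
      ∑ u ∈ 𝒯.seg s t', a u ≤ 2 * ∑ u ∈ 𝒯.seg t t', a u := by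
  classical
  set T := ∑ u ∈ 𝒯.seg s t', a u with hT
  set G := (𝒯.seg s t').filter fun t => T ≤ 2 * ∑ u ∈ 𝒯.seg s t, a u with hG
  have ht' : t' ∈ G := by
    rw [hG, Finset.mem_filter, mem_seg]
    exact ⟨⟨𝒯.refl _, h⟩, by rw [← hT, two_mul]; exact le_self_add⟩
  obtain ⟨t, htG, hmin⟩ := Finset.exists_min_image G (fun t => (𝒯.seg s t).card) ⟨t', ht'⟩
  rw [hG, Finset.mem_filter] at htG
  refine ⟨t, htG.1, htG.2, ?_⟩
  have hst := (𝒯.mem_seg.1 htG.1)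
  -- the elements strictly below `t`
  set L := (𝒯.seg s t).erase t with hL
  have hsplit : T ≤ ∑ u ∈ L, a u + ∑ u ∈ 𝒯.seg t t', a u := by
    rw [hT]
    refine le_trans (Finset.sum_le_sum_of_subset (t := L ∪ 𝒯.seg t t') fun u hu => ?_)
      (le_self_add.trans_eq Finset.sum_union_inter)
    rw [Finset.mem_union, hL, Finset.mem_erase, mem_seg, mem_seg]
    rw [mem_seg] at hu
    rcases 𝒯.chain hu.1 hst.1 with h1 | h1
    · by_cases h2 : u = t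
      · right; exact ⟨hu.1, h2 ▸ 𝒯.refl u⟩
      · left; exact ⟨h2, h1, hu.2⟩
    · right; exact ⟨hu.1, h1⟩
  rcases L.eq_empty_or_nonempty with hL0 | hL0
  · rw [hL0, Finset.sum_empty, zero_add] at hsplit
    exact hsplit.trans (by rw [two_mul]; exact le_self_add)
  obtain ⟨v, hvL, hmax⟩ := Finset.exists_max_image L (fun v => (𝒯.seg s v).card) hL0
  have hv : v ≠ t ∧ v ∈ 𝒯.dn t ∧ s ∈ 𝒯.dn v := by
    rw [hL, Finset.mem_erase, mem_seg] at hvL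
    exact hvL
  have hLv : L ⊆ 𝒯.seg s v := by
    intro u hu
    have hu' : u ≠ t ∧ u ∈ 𝒯.dn t ∧ s ∈ 𝒯.dn u := by
      rw [hL, Finset.mem_erase, mem_seg] at hu
      exact hu
    rw [mem_seg]
    rcases 𝒯.chain hu'.2.1 hv.2.1 with h1 | h1
    · exact ⟨h1, hu'.2.2⟩
    · have h2 : 𝒯.seg s v ⊆ 𝒯.seg s u := 𝒯.seg_subset' h1
      have h3 := Finset.eq_of_subset_of_card_le h2 (hmax u hu)
      have h4 : u ∈ 𝒯.seg s v := by rw [h3, mem_seg]; exact ⟨𝒯.refl u, hu'.2.2⟩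
      exact 𝒯.mem_seg.1 h4
  have hvT : 2 * ∑ u ∈ L, a u ≤ T := by
    by_contra hcon
    push Not at hcon
    have h1 : v ∈ G := by
      rw [hG, Finset.mem_filter, mem_seg]
      refine ⟨⟨𝒯.trans hv.2.1 hst.1, hv.2.2⟩, hcon.le.trans ?_⟩
      gcongr
    have h2 := hmin v h1
    have h3 : 𝒯.seg s v ⊂ 𝒯.seg s t := by
      rw [Finset.ssubset_iff_of_subset (𝒯.seg_subset' hv.2.1)]
      refine ⟨t, 𝒯.mem_seg.2 ⟨𝒯.refl t, hst.2⟩, fun h4 => ?_⟩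
      exact hv.1 (𝒯.antisymm hv.2.1 (𝒯.mem_seg.1 h4).1)
    exact absurd (Finset.card_lt_card h3) (not_lt.2 h2)
  rcases eq_or_ne (∑ u ∈ 𝒯.seg t t', a u) ∞ with hinf | hinf
  · rw [hinf]; simp
  have h1 : 2 * T ≤ T + 2 * ∑ u ∈ 𝒯.seg t t', a u := by
    calc 2 * T ≤ 2 * (∑ u ∈ L, a u + ∑ u ∈ 𝒯.seg t t', a u) := by gcongr
      _ = 2 * ∑ u ∈ L, a u + 2 * ∑ u ∈ 𝒯.seg t t', a u := mul_add _ _ _
      _ ≤ _ := by gcongr
  rcases eq_or_ne T ∞ with hTi | hTi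
  · exfalso
    have h2 : ∑ u ∈ L, a u = ∞ := by
      by_contra h3
      rw [hTi] at hsplit
      exact (ENNReal.add_ne_top.2 ⟨h3, hinf⟩) (top_le_iff.1 hsplit)
    -- then `v` is in `G`, contradiction with minimality as above
    have h4 : v ∈ G := by
      rw [hG, Finset.mem_filter, mem_seg]
      refine ⟨⟨𝒯.trans hv.2.1 hst.1, hv.2.2⟩, ?_⟩
      have h5 : ∑ u ∈ L, a u ≤ ∑ u ∈ 𝒯.seg s v, a u := Finset.sum_le_sum_of_subset hLv
      rw [h2, top_le_iff] at h5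
      rw [h5]
      simp
    have h2 := hmin v h4
    have h3 : 𝒯.seg s v ⊂ 𝒯.seg s t := by
      rw [Finset.ssubset_iff_of_subset (𝒯.seg_subset' hv.2.1)]
      refine ⟨t, 𝒯.mem_seg.2 ⟨𝒯.refl t, hst.2⟩, fun h4 => ?_⟩
      exact hv.1 (𝒯.antisymm hv.2.1 (𝒯.mem_seg.1 h4).1)
    exact absurd (Finset.card_lt_card h3) (not_lt.2 h2)
  · rw [two_mul] at h1
    exact (ENNReal.add_le_add_iff_left hTi).1 h1

end TreeS

end Pool.Agent.W696.AU
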