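import Mathlib
import Pool.Agent.W696.AU.Tree
import Pool.Agent.W696.AU.Psi

/-!
The block maps: coordinates of the nonlinear embedding attached to a node `s`.
-/
set_option autoImplicit false
open scoped ENNReal
open Finset Filter Topology

namespace Pool.Agent.W696.AU

namespace TreeS

variable {N : Type} [DecidableEq N] (𝒯 : TreeS N)

/-- `M_t(|x|)` -/
noncomputable def mM (x : 𝒯.X) (t : N) : ℝ≥0∞ := 𝒯.M (fun n => ‖x.val n‖ₑ) t

lemma enorm_X (x : 𝒯.X) : ‖x‖ₑ = L2 fun s => ENNReal.ofReal (𝒯.w s) * 𝒯.mM x s :=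
  FNorm.Sp.enorm_eq x

lemma w_mM_le (x : 𝒯.X) (t : N) : ENNReal.ofReal (𝒯.w t) * 𝒯.mM x t ≤ ‖x‖ₑ := by
  rw [enorm_X]
  exact le_L2 (fun s => ENNReal.ofReal (𝒯.w s) * 𝒯.mM x s) t

lemma mM_ne_top (x : 𝒯.X) (t : N) : 𝒯.mM x t ≠ ∞ := by
  intro h
  have h1 := 𝒯.w_mM_le x t
  rw [h, ENNReal.mul_top (by simp [𝒯.w_pos t]), top_le_iff] at h1
  exact enorm_ne_top h1

/-- `M_t(|x|)` as a real number -/
noncomputable def Mr (x : 𝒯.X) (t : N) : ℝ := (𝒯.mM x t).toReal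

lemma Mr_nonneg (x : 𝒯.X) (t : N) : 0 ≤ 𝒯.Mr x t := ENNReal.toReal_nonneg

lemma mM_sub_comm (x y : 𝒯.X) (t : N) : 𝒯.mM (x - y) t = 𝒯.mM (y - x) t := by
  unfold mM
  congr 1
  funext n
  simp only [FNorm.Sp.val_sub, Pi.sub_apply]
  rw [← enorm_neg, neg_sub]

lemma mM_le_add (x y : 𝒯.X) (t : N) : 𝒯.mM x t ≤ 𝒯.mM (x - y) t + 𝒯.mM y t := by
  refine le_trans (𝒯.M_mono (fun n => ?_) t) (𝒯.M_add _ _ t)
  have := enorm_add_le ((x - y).val n) (y.val n)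
  simpa using this

lemma mM_sub_le (x y : 𝒯.X) (t : N) : 𝒯.mM (x - y) t ≤ 𝒯.mM x t + 𝒯.mM y t := by
  refine le_trans (𝒯.M_mono (fun n => ?_) t) (𝒯.M_add _ _ t)
  have := enorm_sub_le (a := x.val n) (b := y.val n)
  simpa using this

lemma Mr_sub_le (x y : 𝒯.X) (t : N) : |𝒯.Mr x t - 𝒯.Mr y t| ≤ 𝒯.Mr (x - y) t := by
  have key : ∀ x y : 𝒯.X, 𝒯.Mr x t ≤ 𝒯.Mr (x - y) t + 𝒯.Mr y t := by
    intro x y
    unfold Mr
    rw [← ENNReal.toReal_add (𝒯.mM_ne_top _ _) (𝒯.mM_ne_top _ _)]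
    exact ENNReal.toReal_mono (ENNReal.add_ne_top.2 ⟨𝒯.mM_ne_top _ _, 𝒯.mM_ne_top _ _⟩)
      (𝒯.mM_le_add x y t)
  rw [abs_le]
  have h1 := key x y
  have h2 := key y x
  have h3 : 𝒯.Mr (y - x) t = 𝒯.Mr (x - y) t := by unfold Mr; rw [𝒯.mM_sub_comm]
  rw [h3] at h2
  constructor <;> linarith

/-- the index set of the coordinates of a block -/
abbrev Ix (N : Type) : Type := N × Finset N × ℤ × ℤ

/-- the coordinates of the block of `s` -/
noncomputable def cf (s : N) (x : 𝒯.X) (j : Ix N) : ℝ :=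
  if s ∈ 𝒯.dn j.1 ∧ j.2.1 ⊆ 𝒯.seg s j.1 then
    psi j.2.2.1 j.2.2.2 (∑ u ∈ j.2.1, x.val u) (𝒯.Mr x j.1) else 0

lemma sum_val_le (x : 𝒯.X) {s t : N} {E : Finset N} (h : E ⊆ 𝒯.seg s t) :
    |∑ u ∈ E, x.val u| ≤ 𝒯.Mr x s := by
  unfold Mr
  rw [← Real.norm_eq_abs, ← toReal_enorm]
  refine ENNReal.toReal_mono (𝒯.mM_ne_top x s) ?_
  exact (enorm_sum_le _ _).trans ((Finset.sum_le_sum_of_subset h).trans
    (𝒯.sum_le_M (fun n => ‖x.val n‖ₑ) s t))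

/-- upper bound for the coordinates of a difference -/
lemma cf_sub_le (s : N) (x y : 𝒯.X) (j : Ix N) :
    ‖𝒯.cf s x j - 𝒯.cf s y j‖ₑ ≤ min (𝒯.mM (x - y) s) (max (𝒯.mM x j.1) (𝒯.mM y j.1)) := by
  obtain ⟨t, E, i, m⟩ := j
  unfold cf
  simp only
  by_cases h : s ∈ 𝒯.dn t ∧ E ⊆ 𝒯.seg s t
  · rw [if_pos h, if_pos h, ← ofReal_norm, Real.norm_eq_abs]
    refine le_min ?_ ?_
    · rw [← ENNReal.ofReal_toReal (𝒯.mM_ne_top (x - y) s)]
      refine ENNReal.ofReal_le_ofReal ((psi_lip _ _ _ _ _ _).trans (max_le ?_ ?_))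
      · have h1 := 𝒯.sum_val_le (x - y) h.2
        simp only [FNorm.Sp.val_sub, Pi.sub_apply, Finset.sum_sub_distrib] at h1
        exact h1
      · refine (𝒯.Mr_sub_le x y t).trans ?_
        exact ENNReal.toReal_mono (𝒯.mM_ne_top _ _) (𝒯.M_anti _ h.1)
    · have h1 : |psi i m (∑ u ∈ E, x.val u) (𝒯.Mr x t) - psi i m (∑ u ∈ E, y.val u) (𝒯.Mr y t)| ≤
          max (𝒯.Mr x t) (𝒯.Mr y t) := by
        have h2 := psi_nonneg i m (∑ u ∈ E, x.val u) (𝒯.Mr x t)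
        have h3 := psi_nonneg i m (∑ u ∈ E, y.val u) (𝒯.Mr y t)
        have h4 := psi_le i m (∑ u ∈ E, x.val u) (𝒯.Mr_nonneg x t)
        have h5 := psi_le i m (∑ u ∈ E, y.val u) (𝒯.Mr_nonneg y t)
        rw [abs_le]
        constructor
        · have := le_max_right (𝒯.Mr x t) (𝒯.Mr y t)
          linarith
        · have := le_max_left (𝒯.Mr x t) (𝒯.Mr y t)
          linarith
      refine (ENNReal.ofReal_le_ofReal h1).trans (le_of_eq ?_)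
      unfold Mr
      rw [← ENNReal.toReal_max (𝒯.mM_ne_top _ _) (𝒯.mM_ne_top _ _), ENNReal.ofReal_toReal]
      exact (max_lt (𝒯.mM_ne_top _ _).lt_top (𝒯.mM_ne_top _ _).lt_top).ne
  · rw [if_neg h, if_neg h, sub_self, enorm_zero]
    exact bot_le

/-- detection of the sums over segments starting at `s` -/
lemma cf_detect (s t' : N) (x y : 𝒯.X) :
    ∃ j, ∑ u ∈ 𝒯.seg s t', ‖(x - y).val u‖ₑ ≤ 256 * ‖𝒯.cf s x j - 𝒯.cf s y j‖ₑ := by
  classical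
  by_cases hs : s ∈ 𝒯.dn t'
  swap
  · refine ⟨(s, ∅, 0, 0), ?_⟩
    rw [𝒯.seg_empty hs, Finset.sum_empty]
    exact bot_le
  obtain ⟨t, ht, h1, h2⟩ := 𝒯.median (fun n => ‖(x - y).val n‖ₑ) s t' hs
  have hst := 𝒯.mem_seg.1 ht
  have h2' : ∑ u ∈ 𝒯.seg s t', ‖(x - y).val u‖ₑ ≤ 2 * 𝒯.mM (x - y) t :=
    h2.trans (by gcongr; exact 𝒯.sum_le_M _ t t')
  -- pass to real numbers
  set z : N → ℝ := (x - y).val with hz
  set T : ℝ := ∑ u ∈ 𝒯.seg s t', |z u| with hT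
  have hTe : ∑ u ∈ 𝒯.seg s t', ‖z u‖ₑ = ENNReal.ofReal T := by
    rw [hT, ENNReal.ofReal_sum_of_nonneg fun _ _ => abs_nonneg _]
    refine Finset.sum_congr rfl fun u _ => ?_
    rw [← ofReal_norm, Real.norm_eq_abs]
  have hHe : ∑ u ∈ 𝒯.seg s t, ‖z u‖ₑ = ENNReal.ofReal (∑ u ∈ 𝒯.seg s t, |z u|) := by
    rw [ENNReal.ofReal_sum_of_nonneg fun _ _ => abs_nonneg _]
    refine Finset.sum_congr rfl fun u _ => ?_
    rw [← ofReal_norm, Real.norm_eq_abs]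
  have hT0 : 0 ≤ T := Finset.sum_nonneg fun _ _ => abs_nonneg _
  rw [hTe] at h1 h2'
  rw [hTe]
  have h1r : T ≤ 2 * ∑ u ∈ 𝒯.seg s t, |z u| := by
    rw [hHe] at h1
    have e : (2 : ℝ≥0∞) * ENNReal.ofReal (∑ u ∈ 𝒯.seg s t, |z u|) =
        ENNReal.ofReal (2 * ∑ u ∈ 𝒯.seg s t, |z u|) := by
      rw [ENNReal.ofReal_mul (by norm_num)]; norm_num
    rw [e] at h1
    exact (ENNReal.ofReal_le_ofReal_iff (by positivity)).1 h1
  have h2r : T ≤ 2 * 𝒯.Mr (x - y) t := by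
    have h3 := ENNReal.toReal_mono (ENNReal.mul_ne_top (by norm_num) (𝒯.mM_ne_top _ _)) h2'
    rw [ENNReal.toReal_ofReal hT0, ENNReal.toReal_mul] at h3
    simpa [Mr] using h3
  have h3r : 𝒯.Mr (x - y) t ≤ 𝒯.Mr x t + 𝒯.Mr y t := by
    unfold Mr
    rw [← ENNReal.toReal_add (𝒯.mM_ne_top _ _) (𝒯.mM_ne_top _ _)]
    exact ENNReal.toReal_mono (ENNReal.add_ne_top.2 ⟨𝒯.mM_ne_top _ _, 𝒯.mM_ne_top _ _⟩)
      (𝒯.mM_sub_le x y t)
  -- the subset
  obtain ⟨E, hE, hEsum⟩ : ∃ E ⊆ 𝒯.seg s t, T / 4 ≤ |∑ u ∈ E, z u| := by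
    set E1 := (𝒯.seg s t).filter fun u => 0 ≤ z u with hE1
    set E2 := (𝒯.seg s t).filter fun u => ¬ 0 ≤ z u with hE2
    have h4 : ∑ u ∈ 𝒯.seg s t, |z u| = ∑ u ∈ E1, z u - ∑ u ∈ E2, z u := by
      rw [← Finset.sum_filter_add_sum_filter_not (𝒯.seg s t) (fun u => 0 ≤ z u),
        sub_eq_add_neg, ← Finset.sum_neg_distrib]
      congr 1
      · refine Finset.sum_congr rfl fun u hu => ?_
        rw [Finset.mem_filter] at hu
        exact abs_of_nonneg hu.2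
      · refine Finset.sum_congr rfl fun u hu => ?_
        rw [Finset.mem_filter] at hu
        exact abs_of_neg (not_le.1 hu.2)
    by_cases h5 : T / 4 ≤ |∑ u ∈ E1, z u|
    · exact ⟨E1, Finset.filter_subset _ _, h5⟩
    · refine ⟨E2, Finset.filter_subset _ _, ?_⟩
      push Not at h5
      have h6 := le_abs_self (∑ u ∈ E1, z u)
      have h7 := neg_abs_le (∑ u ∈ E2, z u)
      linarith
  rcases eq_or_lt_of_le hT0 with h0 | h0
  · refine ⟨(s, ∅, 0, 0), ?_⟩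
    rw [← h0, ENNReal.ofReal_zero]
    exact bot_le
  -- detection by `ψ`
  have hval : ∀ (i m : ℤ) (v : 𝒯.X), 𝒯.cf s v (t, E, i, m) =
      psi i m (∑ u ∈ E, v.val u) (𝒯.Mr v t) := by
    intro i m v
    unfold cf
    simp only
    rw [if_pos ⟨hst.2, hE⟩]
  have hsum : ∑ u ∈ E, z u = ∑ u ∈ E, x.val u - ∑ u ∈ E, y.val u := by
    rw [hz]
    simp only [FNorm.Sp.val_sub, Pi.sub_apply, Finset.sum_sub_distrib]
  rw [hsum] at hEsum
  have hfin : ∃ i m : ℤ, T / 256 ≤ |𝒯.cf s x (t, E, i, m) - 𝒯.cf s y (t, E, i, m)| := by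
    rcases le_total (𝒯.Mr y t) (𝒯.Mr x t) with h4 | h4
    · obtain ⟨i, m, him⟩ := psi_detect (a := ∑ u ∈ E, x.val u) (a' := ∑ u ∈ E, y.val u)
        (r := 𝒯.Mr x t) (r' := 𝒯.Mr y t) (by linarith) h4
      refine ⟨i, m, ?_⟩
      rw [hval, hval]
      refine le_trans ?_ him
      have h5 : T / 4 ≤ min |∑ u ∈ E, x.val u - ∑ u ∈ E, y.val u| (𝒯.Mr x t) :=
        le_min hEsum (by linarith)
      linarith
    · obtain ⟨i, m, him⟩ := psi_detect (a := ∑ u ∈ E, y.val u) (a' := ∑ u ∈ E, x.val u)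
        (r := 𝒯.Mr y t) (r' := 𝒯.Mr x t) (by linarith) h4
      refine ⟨i, m, ?_⟩
      rw [hval, hval, abs_sub_comm]
      refine le_trans ?_ him
      have h5 : T / 4 ≤ min |∑ u ∈ E, y.val u - ∑ u ∈ E, x.val u| (𝒯.Mr y t) :=
        le_min (by rw [abs_sub_comm]; exact hEsum) (by linarith)
      linarith
  obtain ⟨i, m, him⟩ := hfin
  refine ⟨(t, E, i, m), ?_⟩
  rw [← ofReal_norm, Real.norm_eq_abs]
  have e : (256 : ℝ≥0∞) = ENNReal.ofReal 256 := by norm_num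
  rw [e, ← ENNReal.ofReal_mul (by norm_num)]
  refine ENNReal.ofReal_le_ofReal ?_
  linarith

/-- bound of the `q`-th power of the norm of a block -/
lemma cf_sum_le (s : N) (x y : 𝒯.X) (q : ℕ) (hq : 1 ≤ q) :
    ∑' j, ‖𝒯.cf s x j - 𝒯.cf s y j‖ₑ ^ q ≤ 2 ^ (𝒯.ht s + 8) *
      ∑' t, if s ∈ 𝒯.dn t then
        (min (𝒯.mM (x - y) s) (max (𝒯.mM x t) (𝒯.mM y t))) ^ q else 0 := by
  classical
  rw [ENNReal.tsum_prod', ← ENNReal.tsum_mul_left]
  refine ENNReal.tsum_le_tsum fun t => ?_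
  by_cases hs : s ∈ 𝒯.dn t
  swap
  · have h0 : ∀ j : Finset N × ℤ × ℤ, ‖𝒯.cf s x (t, j) - 𝒯.cf s y (t, j)‖ₑ ^ q = 0 := by
      intro j
      unfold cf
      simp only
      rw [if_neg fun h => hs h.1, if_neg fun h => hs h.1]
      simp only [sub_self, enorm_zero]
      exact zero_pow (by omega)
    simp only [h0, tsum_zero]
    exact bot_le
  rw [if_pos hs]
  set B : ℝ≥0∞ := min (𝒯.mM (x - y) s) (max (𝒯.mM x t) (𝒯.mM y t)) with hB
  rw [ENNReal.tsum_prod']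
  have hE : ∀ E : Finset N, ∑' im : ℤ × ℤ, ‖𝒯.cf s x (t, E, im) - 𝒯.cf s y (t, E, im)‖ₑ ^ q ≤
      if E ∈ (𝒯.seg s t).powerset then 128 * B ^ q else 0 := by
    intro E
    by_cases hEs : E ⊆ 𝒯.seg s t
    · rw [if_pos (Finset.mem_powerset.2 hEs)]
      set S := psiSupp (∑ u ∈ E, x.val u) (𝒯.Mr x t) ∪ psiSupp (∑ u ∈ E, y.val u) (𝒯.Mr y t)
        with hS
      have hz : ∀ im ∉ S, ‖𝒯.cf s x (t, E, im) - 𝒯.cf s y (t, E, im)‖ₑ ^ q = 0 := by
        rintro ⟨i, m⟩ him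
        rw [hS, Finset.mem_union, not_or] at him
        unfold cf
        simp only
        rw [if_pos ⟨hs, hEs⟩, if_pos ⟨hs, hEs⟩, psi_eq_zero him.1, psi_eq_zero him.2]
        simp only [sub_self, enorm_zero]
        exact zero_pow (by omega)
      rw [tsum_eq_sum hz]
      calc ∑ im ∈ S, ‖𝒯.cf s x (t, E, im) - 𝒯.cf s y (t, E, im)‖ₑ ^ q
          ≤ ∑ _im ∈ S, B ^ q := by
            refine Finset.sum_le_sum fun im _ => ?_
            gcongr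
            exact 𝒯.cf_sub_le s x y (t, E, im)
        _ = (S.card : ℝ≥0∞) * B ^ q := by rw [Finset.sum_const, nsmul_eq_mul]
        _ ≤ 128 * B ^ q := by
            gcongr
            have h1 : S.card ≤ 128 := by
              refine (Finset.card_union_le _ _).trans ?_
              have := card_psiSupp (∑ u ∈ E, x.val u) (𝒯.Mr x t)
              have := card_psiSupp (∑ u ∈ E, y.val u) (𝒯.Mr y t)
              omega
            exact_mod_cast h1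
    · rw [if_neg (fun h => hEs (Finset.mem_powerset.1 h))]
      have h0 : ∀ im : ℤ × ℤ, ‖𝒯.cf s x (t, E, im) - 𝒯.cf s y (t, E, im)‖ₑ ^ q = 0 := by
        intro im
        unfold cf
        simp only
        rw [if_neg fun h => hEs h.2, if_neg fun h => hEs h.2]
        simp only [sub_self, enorm_zero]
        exact zero_pow (by omega)
      simp only [h0, tsum_zero]
      exact le_rfl
  refine (ENNReal.tsum_le_tsum hE).trans ?_
  rw [tsum_eq_sum (s := (𝒯.seg s t).powerset) fun E hE' => if_neg hE']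
  rw [Finset.sum_congr rfl fun E hE' => if_pos hE', Finset.sum_const, Finset.card_powerset,
    nsmul_eq_mul, ← mul_assoc]
  gcongr
  have h1 : (𝒯.seg s t).card ≤ 𝒯.ht s + 1 := by
    rw [𝒯.ht_eq hs]
    exact (Finset.card_le_card (Finset.filter_subset _ _)).trans (𝒯.card_le t)
  have h2 : (2 : ℕ) ^ (𝒯.seg s t).card * 128 ≤ 2 ^ (𝒯.ht s + 8) := by
    calc 2 ^ (𝒯.seg s t).card * 128 ≤ 2 ^ (𝒯.ht s + 1) * 128 := by
          gcongr
          norm_num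
      _ = 2 ^ (𝒯.ht s + 8) := by
          rw [show 𝒯.ht s + 8 = (𝒯.ht s + 1) + 7 from rfl, pow_add 2 (𝒯.ht s + 1) 7]
          norm_num
  exact_mod_cast h2

end TreeS

end Pool.Agent.W696.AU
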