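import Mathlib
import Pool.Agent.W696.AU.Block

/-!
The maps into `ℓ₂`-sums of `ℓ_q` spaces.
-/
set_option autoImplicit false
open scoped ENNReal
open Finset Filter Topology

namespace Pool.Agent.W696.AU

section nat

variable {I : Type} {E : I → Type} [∀ i, NormedAddCommGroup (E i)] {q : ℕ}

lemma memlp_nat (f : ∀ i, E i) (h : ∑' i, ‖f i‖ₑ ^ q ≠ ∞) :
    Memℓp f (q : ℝ≥0∞) := by
  refine memℓp_gen ?_
  have h1 := ENNReal.summable_toReal h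
  refine h1.congr fun i => ?_
  rw [ENNReal.toReal_pow, toReal_enorm, ENNReal.toReal_natCast, Real.rpow_natCast]

lemma enorm_pow_nat [Fact (1 ≤ (q : ℝ≥0∞))] (hq : 1 ≤ q) (f : lp E (q : ℝ≥0∞)) : ‖f‖ₑ ^ q = ∑' i, ‖f i‖ₑ ^ q := by
  have hq' : 0 < ((q : ℝ≥0∞)).toReal := by
    rw [ENNReal.toReal_natCast]; exact_mod_cast hq
  have h1 := lp.norm_rpow_eq_tsum hq' f
  have h2 := (lp.memℓp f).summable hq'
  simp only [ENNReal.toReal_natCast, Real.rpow_natCast] at h1 h2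
  rw [← ofReal_norm, ← ENNReal.ofReal_pow (norm_nonneg _), h1,
    ENNReal.ofReal_tsum_of_nonneg (fun i => by positivity) h2]
  refine tsum_congr fun i => ?_
  rw [ENNReal.ofReal_pow (norm_nonneg _), ofReal_norm]

end nat

/-- half of the exponents -/
def lq (n k : ℕ) : ℕ := 2 * k + n + 7

/-- the exponents -/
def qq (n k : ℕ) : ℕ := 2 * lq n k

lemma qq_ge (n k : ℕ) : 2 ≤ qq n k := by unfold qq lq; omega

instance (n k : ℕ) : Fact (1 ≤ ((qq n k : ℕ) : ℝ≥0∞)) :=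
  ⟨by exact_mod_cast (by have := qq_ge n k; omega : 1 ≤ qq n k)⟩

namespace TreeS

variable {N : Type} [DecidableEq N] (𝒯 : TreeS N)

/-- the block spaces -/
abbrev EB (n : ℕ) (s : N) : Type := lp (fun _ : Ix N => ℝ) ((qq n (𝒯.ht s) : ℕ) : ℝ≥0∞)

/-- the `ℓ₂`-sum of the block spaces -/
abbrev Z (n : ℕ) : Type := lp (fun s : N => 𝒯.EB n s) 2

lemma mM_zero (t : N) : 𝒯.mM 0 t = 0 := by
  refine le_antisymm (𝒯.M_le fun v => ?_) bot_le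
  simp

lemma cf_zero (s : N) (j : Ix N) : 𝒯.cf s 0 j = 0 := by
  unfold cf
  split_ifs
  · refine le_antisymm ((psi_le _ _ _ (𝒯.Mr_nonneg _ _)).trans ?_) (psi_nonneg _ _ _ _)
    unfold Mr
    rw [𝒯.mM_zero]
    simp
  · rfl

/-- the squares of the blocks -/
lemma block_pow_le (n : ℕ) (s : N) (x y : 𝒯.X) :
    ∑' j, ‖𝒯.cf s x j - 𝒯.cf s y j‖ₑ ^ (qq n (𝒯.ht s)) ≤
      (4 * ((𝒯.mM (x - y) s) ^ 2 + ((4 : ℝ≥0∞) ^ (𝒯.ht s + n + 3))⁻¹ *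
        ∑' t, if s ∈ 𝒯.dn t then (max (𝒯.mM x t) (𝒯.mM y t)) ^ 2 else 0)) ^ (lq n (𝒯.ht s)) := by
  set k := 𝒯.ht s with hk
  set G := ∑' t, if s ∈ 𝒯.dn t then (max (𝒯.mM x t) (𝒯.mM y t)) ^ 2 else 0 with hG
  set A := 𝒯.mM (x - y) s with hA
  set P := A ^ 2 + ((4 : ℝ≥0∞) ^ (k + n + 3))⁻¹ * G with hP
  obtain ⟨l, hl⟩ : ∃ l, lq n k = l + 1 := ⟨2 * k + n + 6, by unfold lq; omega⟩
  have h1 := 𝒯.cf_sum_le s x y (qq n k) (by have := qq_ge n k; omega)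
  refine h1.trans ?_
  have h2 : ∀ t, (if s ∈ 𝒯.dn t then (min A (max (𝒯.mM x t) (𝒯.mM y t))) ^ (qq n k) else 0) ≤
      P ^ l * (if s ∈ 𝒯.dn t then (max (𝒯.mM x t) (𝒯.mM y t)) ^ 2 else 0) := by
    intro t
    by_cases hs : s ∈ 𝒯.dn t
    · rw [if_pos hs, if_pos hs]
      unfold qq
      rw [hl, pow_mul, pow_succ]
      have h3 : (min A (max (𝒯.mM x t) (𝒯.mM y t))) ^ 2 ≤ P := by
        calc (min A (max (𝒯.mM x t) (𝒯.mM y t))) ^ 2 ≤ A ^ 2 := by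
              gcongr; exact min_le_left _ _
          _ ≤ P := le_self_add
      have h4 : (min A (max (𝒯.mM x t) (𝒯.mM y t))) ^ 2 ≤ (max (𝒯.mM x t) (𝒯.mM y t)) ^ 2 := by
        gcongr; exact min_le_right _ _
      gcongr
    · rw [if_neg hs, if_neg hs]
      exact bot_le
  have h5 : G ≤ (4 : ℝ≥0∞) ^ (k + n + 3) * P := by
    have h6 : (4 : ℝ≥0∞) ^ (k + n + 3) ≠ 0 := by positivity
    have h7 : (4 : ℝ≥0∞) ^ (k + n + 3) ≠ ∞ := ENNReal.pow_ne_top (by norm_num)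
    calc G = (4 : ℝ≥0∞) ^ (k + n + 3) * (((4 : ℝ≥0∞) ^ (k + n + 3))⁻¹ * G) := by
          rw [← mul_assoc, ENNReal.mul_inv_cancel h6 h7, one_mul]
      _ ≤ _ := by gcongr; exact le_add_self
  calc 2 ^ (k + 8) * ∑' t, (if s ∈ 𝒯.dn t then
        (min A (max (𝒯.mM x t) (𝒯.mM y t))) ^ (qq n k) else 0)
      ≤ 2 ^ (k + 8) * (P ^ l * G) := by
        gcongr
        rw [hG, ← ENNReal.tsum_mul_left]
        exact ENNReal.tsum_le_tsum h2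
    _ ≤ 2 ^ (k + 8) * (P ^ l * ((4 : ℝ≥0∞) ^ (k + n + 3) * P)) := by gcongr
    _ = (2 ^ (k + 8) * (4 : ℝ≥0∞) ^ (k + n + 3)) * P ^ (l + 1) := by ring
    _ ≤ (4 : ℝ≥0∞) ^ (l + 1) * P ^ (l + 1) := by
        gcongr
        have e : (4 : ℝ≥0∞) = 2 ^ 2 := by norm_num
        rw [e, ← pow_mul, ← pow_mul, ← pow_add]
        refine pow_le_pow_right₀ (by norm_num) ?_
        have : l = 2 * k + n + 6 := by unfold lq at hl; omega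
        omega
    _ = (4 * P) ^ (lq n k) := by rw [hl, mul_pow]

lemma tail_fin (s : N) (x y : 𝒯.X) :
    (∑' t, if s ∈ 𝒯.dn t then (max (𝒯.mM x t) (𝒯.mM y t)) ^ 2 else 0) ≠ ∞ := by
  have h1 : (∑' t, if s ∈ 𝒯.dn t then (max (𝒯.mM x t) (𝒯.mM y t)) ^ 2 else 0) ≤
      (4 : ℝ≥0∞) ^ (𝒯.ht s) * (‖x‖ₑ ^ 2 + ‖y‖ₑ ^ 2) := by
    rw [enorm_X, enorm_X, L2_sq, L2_sq, ← ENNReal.tsum_add, ← ENNReal.tsum_mul_left]
    refine ENNReal.tsum_le_tsum fun t => ?_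
    by_cases hs : s ∈ 𝒯.dn t
    · rw [if_pos hs, 𝒯.ht_eq hs, mul_pow, mul_pow, ← mul_add, ← mul_assoc]
      have h2 := 𝒯.w_ge t
      have h3 : (max (𝒯.mM x t) (𝒯.mM y t)) ^ 2 ≤ (𝒯.mM x t) ^ 2 + (𝒯.mM y t) ^ 2 := by
        rcases le_total (𝒯.mM x t) (𝒯.mM y t) with h | h
        · rw [max_eq_right h]; exact le_add_self
        · rw [max_eq_left h]; exact le_self_add
      calc (max (𝒯.mM x t) (𝒯.mM y t)) ^ 2 ≤ 1 * ((𝒯.mM x t) ^ 2 + (𝒯.mM y t) ^ 2) := by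
            rw [one_mul]; exact h3
        _ ≤ _ := by gcongr
    · rw [if_neg hs]; exact bot_le
  refine ne_top_of_le_ne_top ?_ h1
  exact ENNReal.mul_ne_top (ENNReal.pow_ne_top (by norm_num))
    (ENNReal.add_ne_top.2 ⟨ENNReal.pow_ne_top enorm_ne_top, ENNReal.pow_ne_top enorm_ne_top⟩)

lemma mem_block (n : ℕ) (s : N) (x : 𝒯.X) :
    Memℓp (fun j : Ix N => 𝒯.cf s x j) ((qq n (𝒯.ht s) : ℕ) : ℝ≥0∞) := by
  refine memlp_nat _ ?_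
  have h1 := 𝒯.block_pow_le n s x 0
  simp only [cf_zero, sub_zero] at h1
  refine ne_top_of_le_ne_top (ENNReal.pow_ne_top (ENNReal.mul_ne_top (by norm_num)
    (ENNReal.add_ne_top.2 ⟨ENNReal.pow_ne_top (𝒯.mM_ne_top _ _),
      ENNReal.mul_ne_top ?_ (𝒯.tail_fin s x 0)⟩))) h1
  exact ENNReal.inv_ne_top.2 (by positivity)

/-- the blocks of the map -/
noncomputable def blk (n : ℕ) (x : 𝒯.X) (s : N) : 𝒯.EB n s :=
  ⟨fun j : Ix N => 𝒯.cf s x j, 𝒯.mem_block n s x⟩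

lemma blk_apply (n : ℕ) (x : 𝒯.X) (s : N) (j : Ix N) : (𝒯.blk n x s) j = 𝒯.cf s x j := rfl

lemma blk_sub_apply (n : ℕ) (x y : 𝒯.X) (s : N) (j : Ix N) :
    (𝒯.blk n x s - 𝒯.blk n y s) j = 𝒯.cf s x j - 𝒯.cf s y j := rfl

lemma blk_zero (n : ℕ) (s : N) : 𝒯.blk n 0 s = 0 := by
  apply lp.ext
  funext j
  exact 𝒯.cf_zero s j

lemma blk_sub_sq_le (n : ℕ) (x y : 𝒯.X) (s : N) : ‖𝒯.blk n x s - 𝒯.blk n y s‖ₑ ^ 2 ≤
    4 * ((𝒯.mM (x - y) s) ^ 2 + ((4 : ℝ≥0∞) ^ (𝒯.ht s + n + 3))⁻¹ *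
        ∑' t, if s ∈ 𝒯.dn t then (max (𝒯.mM x t) (𝒯.mM y t)) ^ 2 else 0) := by
  have h1 := 𝒯.block_pow_le n s x y
  have h2 := enorm_pow_nat (q := qq n (𝒯.ht s)) (by have := qq_ge n (𝒯.ht s); omega)
    (𝒯.blk n x s - 𝒯.blk n y s)
  simp only [blk_sub_apply] at h2
  rw [← h2] at h1
  unfold qq at h1
  rw [pow_mul] at h1
  have hne : lq n (𝒯.ht s) ≠ 0 := by unfold lq; omega
  exact (ENNReal.pow_le_pow_left_iff hne).1 h1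

lemma le_blk_sub (n : ℕ) (x y : 𝒯.X) (s : N) :
    𝒯.mM (x - y) s ≤ 256 * ‖𝒯.blk n x s - 𝒯.blk n y s‖ₑ := by
  refine 𝒯.M_le fun t => ?_
  obtain ⟨j, hj⟩ := 𝒯.cf_detect s t x y
  refine hj.trans ?_
  gcongr
  have h1 := lp.norm_apply_le_norm (p := ((qq n (𝒯.ht s) : ℕ) : ℝ≥0∞)) (by
    have := qq_ge n (𝒯.ht s)
    simp only [ne_eq, Nat.cast_eq_zero]
    omega) (𝒯.blk n x s - 𝒯.blk n y s) j
  rw [blk_sub_apply] at h1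
  rw [← ofReal_norm, ← ofReal_norm]
  exact ENNReal.ofReal_le_ofReal h1

/-- the sum of the tails -/
lemma sum_tail_le (n : ℕ) (x y : 𝒯.X) :
    ∑' s, (ENNReal.ofReal (𝒯.w s)) ^ 2 * (((4 : ℝ≥0∞) ^ (𝒯.ht s + n + 3))⁻¹ *
        ∑' t, if s ∈ 𝒯.dn t then (max (𝒯.mM x t) (𝒯.mM y t)) ^ 2 else 0) ≤
      2 * ((4 : ℝ≥0∞) ^ (n + 3))⁻¹ * (‖x‖ₑ ^ 2 + ‖y‖ₑ ^ 2) := by
  simp only [← ENNReal.tsum_mul_left]
  rw [ENNReal.tsum_comm, enorm_X, enorm_X, L2_sq, L2_sq, ← ENNReal.tsum_add,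
    ← ENNReal.tsum_mul_left]
  refine ENNReal.tsum_le_tsum fun t => ?_
  have h3 : (max (𝒯.mM x t) (𝒯.mM y t)) ^ 2 ≤ (𝒯.mM x t) ^ 2 + (𝒯.mM y t) ^ 2 := by
    rcases le_total (𝒯.mM x t) (𝒯.mM y t) with h | h
    · rw [max_eq_right h]; exact le_add_self
    · rw [max_eq_left h]; exact le_self_add
  calc ∑' s, (ENNReal.ofReal (𝒯.w s)) ^ 2 * (((4 : ℝ≥0∞) ^ (𝒯.ht s + n + 3))⁻¹ *
        if s ∈ 𝒯.dn t then (max (𝒯.mM x t) (𝒯.mM y t)) ^ 2 else 0)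
      = ∑ s ∈ 𝒯.dn t, (ENNReal.ofReal (𝒯.w s)) ^ 2 * (((4 : ℝ≥0∞) ^ (𝒯.ht t + n + 3))⁻¹ *
          (max (𝒯.mM x t) (𝒯.mM y t)) ^ 2) := by
        rw [tsum_eq_sum (s := 𝒯.dn t) fun s hs => by rw [if_neg hs]; simp]
        refine Finset.sum_congr rfl fun s hs => ?_
        rw [if_pos hs, 𝒯.ht_eq hs]
    _ ≤ 2 * (((4 : ℝ≥0∞) ^ (𝒯.ht t + n + 3))⁻¹ * (max (𝒯.mM x t) (𝒯.mM y t)) ^ 2) := by
        rw [← Finset.sum_mul]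
        gcongr
        exact 𝒯.sum_w t
    _ ≤ 2 * (((4 : ℝ≥0∞) ^ (𝒯.ht t + n + 3))⁻¹ * ((4 : ℝ≥0∞) ^ (𝒯.ht t) *
          ((ENNReal.ofReal (𝒯.w t)) ^ 2 * ((𝒯.mM x t) ^ 2 + (𝒯.mM y t) ^ 2)))) := by
        gcongr
        calc (max (𝒯.mM x t) (𝒯.mM y t)) ^ 2 ≤ 1 * ((𝒯.mM x t) ^ 2 + (𝒯.mM y t) ^ 2) := by
              rw [one_mul]; exact h3
          _ ≤ ((4 : ℝ≥0∞) ^ (𝒯.ht t) * (ENNReal.ofReal (𝒯.w t)) ^ 2) *
                ((𝒯.mM x t) ^ 2 + (𝒯.mM y t) ^ 2) := by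
              gcongr; exact 𝒯.w_ge t
          _ = _ := by ring
    _ = 2 * ((4 : ℝ≥0∞) ^ (n + 3))⁻¹ * ((ENNReal.ofReal (𝒯.w t) * 𝒯.mM x t) ^ 2 +
          (ENNReal.ofReal (𝒯.w t) * 𝒯.mM y t) ^ 2) := by
        have h4 : ((4 : ℝ≥0∞) ^ (𝒯.ht t + n + 3))⁻¹ * (4 : ℝ≥0∞) ^ (𝒯.ht t) =
            ((4 : ℝ≥0∞) ^ (n + 3))⁻¹ := by
          rw [add_assoc, pow_add, ENNReal.mul_inv (Or.inl (by positivity))
            (Or.inl (ENNReal.pow_ne_top (by norm_num))), mul_right_comm,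
            ENNReal.inv_mul_cancel (by positivity) (ENNReal.pow_ne_top (by norm_num)), one_mul]
        rw [← mul_assoc (((4 : ℝ≥0∞) ^ (𝒯.ht t + n + 3))⁻¹), h4, mul_pow, mul_pow]
        ring

lemma mem_map (n : ℕ) (x : 𝒯.X) :
    Memℓp (fun s : N => 𝒯.w s • 𝒯.blk n x s) ((2 : ℕ) : ℝ≥0∞) := by
  refine memlp_nat _ ?_
  have h1 : ∀ s, ‖𝒯.w s • 𝒯.blk n x s‖ₑ ^ 2 ≤ 4 * ((ENNReal.ofReal (𝒯.w s) * 𝒯.mM x s) ^ 2 +
      (ENNReal.ofReal (𝒯.w s)) ^ 2 * (((4 : ℝ≥0∞) ^ (𝒯.ht s + n + 3))⁻¹ *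
        ∑' t, if s ∈ 𝒯.dn t then (max (𝒯.mM x t) (𝒯.mM 0 t)) ^ 2 else 0)) := by
    intro s
    have h2 := 𝒯.blk_sub_sq_le n x 0 s
    rw [blk_zero, sub_zero, sub_zero] at h2
    rw [enorm_smul, mul_pow, ← ofReal_norm, Real.norm_of_nonneg (𝒯.w_pos s).le]
    refine (mul_le_mul' le_rfl h2).trans (le_of_eq ?_)
    ring
  refine ne_top_of_le_ne_top ?_ (ENNReal.tsum_le_tsum h1)
  rw [ENNReal.tsum_mul_left, ENNReal.tsum_add, ← L2_sq, ← enorm_X]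
  refine ENNReal.mul_ne_top (by norm_num) (ENNReal.add_ne_top.2
    ⟨ENNReal.pow_ne_top enorm_ne_top, ne_top_of_le_ne_top ?_ (𝒯.sum_tail_le n x 0)⟩)
  refine ENNReal.mul_ne_top (ENNReal.mul_ne_top (by norm_num) (ENNReal.inv_ne_top.2 (by positivity)))
    (ENNReal.add_ne_top.2 ⟨ENNReal.pow_ne_top enorm_ne_top, ENNReal.pow_ne_top enorm_ne_top⟩)

/-- the map into the `ℓ₂`-sum -/
noncomputable def MM (n : ℕ) (x : 𝒯.X) : 𝒯.Z n :=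
  ⟨fun s : N => 𝒯.w s • 𝒯.blk n x s, by
    have h := 𝒯.mem_map n x
    exact_mod_cast h⟩

lemma MM_apply (n : ℕ) (x : 𝒯.X) (s : N) : (𝒯.MM n x) s = 𝒯.w s • 𝒯.blk n x s := rfl

lemma MM_sub_apply (n : ℕ) (x y : 𝒯.X) (s : N) :
    (𝒯.MM n x - 𝒯.MM n y) s = 𝒯.w s • (𝒯.blk n x s - 𝒯.blk n y s) := by
  rw [smul_sub]; rfl

lemma MM_zero (n : ℕ) : 𝒯.MM n 0 = 0 := by
  apply lp.ext
  funext s
  rw [MM_apply, blk_zero, smul_zero]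
  rfl

lemma enorm_sq_lp {I : Type} {E : I → Type} [∀ i, NormedAddCommGroup (E i)] (f : lp E 2) :
    ‖f‖ₑ ^ 2 = ∑' i, ‖f i‖ₑ ^ 2 := by
  have h2 : (0 : ℝ) < ((2 : ℝ≥0∞)).toReal := by norm_num
  have h1 := lp.norm_rpow_eq_tsum h2 f
  have h3 := (lp.memℓp f).summable h2
  have e : ∀ x : ℝ, x ^ ((2 : ℝ≥0∞)).toReal = x ^ 2 := fun x => by
    rw [ENNReal.toReal_ofNat]; norm_cast
  simp only [e] at h1 h3
  rw [← ofReal_norm, ← ENNReal.ofReal_pow (norm_nonneg _), h1,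
    ENNReal.ofReal_tsum_of_nonneg (fun i => by positivity) h3]
  refine tsum_congr fun i => ?_
  rw [ENNReal.ofReal_pow (norm_nonneg _), ofReal_norm]

/-- lower bound -/
lemma le_MM_sub (n : ℕ) (x y : 𝒯.X) : ‖x - y‖ ≤ 256 * ‖𝒯.MM n x - 𝒯.MM n y‖ := by
  have h1 : ‖x - y‖ₑ ^ 2 ≤ (256 * ‖𝒯.MM n x - 𝒯.MM n y‖ₑ) ^ 2 := by
    rw [enorm_X, L2_sq, mul_pow, enorm_sq_lp, ← ENNReal.tsum_mul_left]
    refine ENNReal.tsum_le_tsum fun s => ?_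
    rw [MM_sub_apply, ← mul_pow, enorm_smul, ← ofReal_norm (𝒯.w s),
      Real.norm_of_nonneg (𝒯.w_pos s).le]
    gcongr ?_ ^ 2
    calc ENNReal.ofReal (𝒯.w s) * 𝒯.mM (x - y) s
        ≤ ENNReal.ofReal (𝒯.w s) * (256 * ‖𝒯.blk n x s - 𝒯.blk n y s‖ₑ) := by
          gcongr
          exact 𝒯.le_blk_sub n x y s
      _ = _ := by ring
  have h2 := (ENNReal.pow_le_pow_left_iff two_ne_zero).1 h1
  have h3 := ENNReal.toReal_mono (ENNReal.mul_ne_top (by norm_num) enorm_ne_top) h2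
  simpa using h3

/-- upper bound -/
lemma MM_sub_le (n : ℕ) (x y : 𝒯.X) (hx : ‖x‖ ≤ 2 ^ (n + 2)) (hy : ‖y‖ ≤ 2 ^ (n + 2)) :
    ‖𝒯.MM n x - 𝒯.MM n y‖ ≤ 2 * (‖x - y‖ + 1) := by
  have hx' : ‖x‖ₑ ^ 2 ≤ (4 : ℝ≥0∞) ^ (n + 2) := by
    have h1 : ‖x‖ₑ ≤ 2 ^ (n + 2) := by
      rw [← ofReal_norm]
      refine (ENNReal.ofReal_le_ofReal hx).trans (le_of_eq ?_)
      rw [ENNReal.ofReal_pow (by norm_num)]
      norm_num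
    calc ‖x‖ₑ ^ 2 ≤ (2 ^ (n + 2)) ^ 2 := by gcongr
      _ = (4 : ℝ≥0∞) ^ (n + 2) := by rw [← pow_mul, mul_comm, pow_mul]; norm_num
  have hy' : ‖y‖ₑ ^ 2 ≤ (4 : ℝ≥0∞) ^ (n + 2) := by
    have h1 : ‖y‖ₑ ≤ 2 ^ (n + 2) := by
      rw [← ofReal_norm]
      refine (ENNReal.ofReal_le_ofReal hy).trans (le_of_eq ?_)
      rw [ENNReal.ofReal_pow (by norm_num)]
      norm_num
    calc ‖y‖ₑ ^ 2 ≤ (2 ^ (n + 2)) ^ 2 := by gcongr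
      _ = (4 : ℝ≥0∞) ^ (n + 2) := by rw [← pow_mul, mul_comm, pow_mul]; norm_num
  have h1 : ‖𝒯.MM n x - 𝒯.MM n y‖ₑ ^ 2 ≤ (2 * (‖x - y‖ₑ + 1)) ^ 2 := by
    rw [enorm_sq_lp]
    calc ∑' s, ‖(𝒯.MM n x - 𝒯.MM n y) s‖ₑ ^ 2
        ≤ ∑' s, 4 * ((ENNReal.ofReal (𝒯.w s) * 𝒯.mM (x - y) s) ^ 2 +
          (ENNReal.ofReal (𝒯.w s)) ^ 2 * (((4 : ℝ≥0∞) ^ (𝒯.ht s + n + 3))⁻¹ *
          ∑' t, if s ∈ 𝒯.dn t then (max (𝒯.mM x t) (𝒯.mM y t)) ^ 2 else 0)) := by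
          refine ENNReal.tsum_le_tsum fun s => ?_
          rw [MM_sub_apply, enorm_smul, mul_pow, ← ofReal_norm (𝒯.w s),
            Real.norm_of_nonneg (𝒯.w_pos s).le]
          refine (mul_le_mul' le_rfl (𝒯.blk_sub_sq_le n x y s)).trans (le_of_eq ?_)
          ring
      _ ≤ 4 * (‖x - y‖ₑ ^ 2 + 1) := by
          rw [ENNReal.tsum_mul_left, ENNReal.tsum_add, enorm_X, L2_sq]
          gcongr
          refine (𝒯.sum_tail_le n x y).trans ?_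
          calc 2 * ((4 : ℝ≥0∞) ^ (n + 3))⁻¹ * (‖x‖ₑ ^ 2 + ‖y‖ₑ ^ 2)
              ≤ 2 * ((4 : ℝ≥0∞) ^ (n + 3))⁻¹ * ((4 : ℝ≥0∞) ^ (n + 2) + (4 : ℝ≥0∞) ^ (n + 2)) := by
                gcongr
            _ = ((4 : ℝ≥0∞) ^ (n + 3))⁻¹ * (4 : ℝ≥0∞) ^ (n + 3) := by
                rw [show n + 3 = (n + 2) + 1 from rfl, pow_succ (4 : ℝ≥0∞) (n + 2)]
                ring
            _ = 1 := ENNReal.inv_mul_cancel (by positivity) (ENNReal.pow_ne_top (by norm_num))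
      _ ≤ (2 * (‖x - y‖ₑ + 1)) ^ 2 := by
          rw [mul_pow]
          have e : (2 : ℝ≥0∞) ^ 2 = 4 := by norm_num
          rw [e]
          gcongr
          calc ‖x - y‖ₑ ^ 2 + 1 ≤ ‖x - y‖ₑ ^ 2 + 1 + 2 * ‖x - y‖ₑ := le_self_add
            _ = (‖x - y‖ₑ + 1) ^ 2 := by ring
  have h2 := (ENNReal.pow_le_pow_left_iff two_ne_zero).1 h1
  have h3 := ENNReal.toReal_mono (ENNReal.mul_ne_top (by norm_num)
    (ENNReal.add_ne_top.2 ⟨enorm_ne_top, ENNReal.one_ne_top⟩)) h2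
  rw [ENNReal.toReal_mul, ENNReal.toReal_add enorm_ne_top ENNReal.one_ne_top, toReal_enorm,
    toReal_enorm] at h3
  simpa using h3

end TreeS

end Pool.Agent.W696.AU
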