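import Mathlib
import Pool.Agent.W696.AU.Map

/-!
The concrete tree: finite sequences of length at most `k`, for all `k`.
-/
set_option autoImplicit false
open scoped ENNReal
open Finset Filter Topology

namespace Pool.Agent.W696.AU

/-- nodes: a number `k` and a list of length at most `k` -/
abbrev Nd : Type := {p : ℕ × List ℕ // p.2.length ≤ p.1}

/-- dropping the last `j` choices -/
def dropN (t : Nd) (j : ℕ) : Nd := ⟨(t.1.1, t.1.2.drop j), by
  have := t.2
  rw [List.length_drop]
  omega⟩

/-- the length of a node -/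
def len (t : Nd) : ℕ := t.1.2.length

lemma len_dropN (t : Nd) (j : ℕ) : len (dropN t j) = len t - j := List.length_drop

lemma dropN_dropN (t : Nd) (i j : ℕ) : dropN (dropN t i) j = dropN t (i + j) := by
  unfold dropN
  simp only [List.drop_drop]

lemma dropN_zero (t : Nd) : dropN t 0 = t := rfl

/-- the nodes below `t` -/
def dnN (t : Nd) : Finset Nd := (Finset.range (len t + 1)).image (dropN t)

lemma mem_dnN {s t : Nd} : s ∈ dnN t ↔ ∃ j, j ≤ len t ∧ dropN t j = s := by
  unfold dnN
  rw [Finset.mem_image]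
  constructor
  · rintro ⟨j, hj, h⟩
    exact ⟨j, by have := Finset.mem_range.1 hj; omega, h⟩
  · rintro ⟨j, hj, h⟩
    exact ⟨j, Finset.mem_range.2 (by omega), h⟩

lemma dropN_injOn (t : Nd) : Set.InjOn (dropN t) (Finset.range (len t + 1)) := by
  intro i hi j hj hij
  have h1 := congrArg len hij
  rw [len_dropN, len_dropN] at h1
  simp only [Finset.coe_range, Set.mem_Iio] at hi hj
  omega

/-- the tree -/
noncomputable def tr : TreeS Nd where
  dn := dnN
  refl t := mem_dnN.2 ⟨0, Nat.zero_le _, rfl⟩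
  trans := by
    intro u s t hu hs
    obtain ⟨i, hi, rfl⟩ := mem_dnN.1 hs
    obtain ⟨j, hj, rfl⟩ := mem_dnN.1 hu
    rw [len_dropN] at hj
    exact mem_dnN.2 ⟨i + j, by omega, (dropN_dropN t i j).symm⟩
  chain := by
    intro u v t hu hv
    obtain ⟨i, hi, rfl⟩ := mem_dnN.1 hu
    obtain ⟨j, hj, rfl⟩ := mem_dnN.1 hv
    rcases le_total i j with h | h
    · right
      refine mem_dnN.2 ⟨j - i, by rw [len_dropN]; omega, ?_⟩
      rw [dropN_dropN]
      congr 1
      omega
    · left
      refine mem_dnN.2 ⟨i - j, by rw [len_dropN]; omega, ?_⟩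
      rw [dropN_dropN]
      congr 1
      omega
  antisymm := by
    intro u v hu hv
    obtain ⟨i, hi, rfl⟩ := mem_dnN.1 hu
    obtain ⟨j, hj, h⟩ := mem_dnN.1 hv
    have h1 := congrArg len h
    rw [len_dropN, len_dropN] at h1
    have h2 : i = 0 := by omega
    rw [h2, dropN_zero]
  w s := (1 / 2) ^ len s
  w_pos s := by positivity
  sum_w t := by
    rw [dnN, Finset.sum_image (fun i hi j hj h => dropN_injOn t hi hj h)]
    have h1 : ∀ j ∈ Finset.range (len t + 1), (ENNReal.ofReal ((1 / 2 : ℝ) ^ len (dropN t j))) ^ 2 =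
        ENNReal.ofReal ((1 / 4 : ℝ) ^ (len t + 1 - 1 - j)) := by
      intro j _
      rw [← ENNReal.ofReal_pow (by positivity), len_dropN, ← pow_mul, mul_comm, pow_mul]
      norm_num
    rw [Finset.sum_congr rfl h1, Finset.sum_range_reflect
      (fun j => ENNReal.ofReal ((1 / 4 : ℝ) ^ j)) (len t + 1),
      ← ENNReal.ofReal_sum_of_nonneg fun _ _ => by positivity]
    have h2 : ∑ j ∈ Finset.range (len t + 1), (1 / 4 : ℝ) ^ j ≤ 2 := by
      rw [geom_sum_eq (by norm_num)]
      have h3 : (0 : ℝ) < (1 / 4) ^ (len t + 1) := by positivity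
      rw [div_le_iff_of_neg (by norm_num)]
      linarith
    calc ENNReal.ofReal (∑ j ∈ Finset.range (len t + 1), (1 / 4 : ℝ) ^ j) ≤ ENNReal.ofReal 2 :=
          ENNReal.ofReal_le_ofReal h2
      _ = 2 := by norm_num
  ht t := t.1.1
  ht_eq := by
    intro s t h
    obtain ⟨i, hi, rfl⟩ := mem_dnN.1 h
    rfl
  card_le t := by
    refine Finset.card_image_le.trans ?_
    rw [Finset.card_range]
    have := t.2
    unfold len
    omega
  w_ge t := by
    have h1 : (ENNReal.ofReal ((1 / 2 : ℝ) ^ len t)) ^ 2 = ((4 : ℝ≥0∞) ^ len t)⁻¹ := by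
      rw [← ENNReal.ofReal_pow (by positivity), ← pow_mul, mul_comm, pow_mul,
        show ((1 / 2 : ℝ) ^ 2) = (4 : ℝ)⁻¹ by norm_num, inv_pow,
        ENNReal.ofReal_inv_of_pos (by positivity), ENNReal.ofReal_pow (by norm_num)]
      norm_num
    rw [h1]
    calc (1 : ℝ≥0∞) = (4 : ℝ≥0∞) ^ len t * ((4 : ℝ≥0∞) ^ len t)⁻¹ := by
          rw [ENNReal.mul_inv_cancel (by positivity) (ENNReal.pow_ne_top (by norm_num))]
      _ ≤ _ := by
          gcongr
          · norm_num
          · exact t.2

/-- the space `X` -/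
abbrev XX : Type := tr.X

/-- the children -/
def ch (t : Nd) (h : len t < t.1.1) (n : ℕ) : Nd := ⟨(t.1.1, n :: t.1.2), by
  show (n :: t.1.2).length ≤ t.1.1
  rw [List.length_cons]
  exact h⟩

lemma len_ch (t : Nd) (h : len t < t.1.1) (n : ℕ) : len (ch t h n) = len t + 1 := rfl

lemma ch_inj {t : Nd} {h : len t < t.1.1} {n m : ℕ} (hnm : ch t h n = ch t h m) : n = m := by
  have h1 := congrArg (fun s : Nd => s.1.2) hnm
  exact (List.cons.inj h1).1

lemma mem_dn_ch {s t : Nd} {h : len t < t.1.1} {n : ℕ} :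
    s ∈ tr.dn (ch t h n) ↔ s = ch t h n ∨ s ∈ tr.dn t := by
  show s ∈ dnN (ch t h n) ↔ s = ch t h n ∨ s ∈ dnN t
  constructor
  · intro hs
    obtain ⟨j, hj, rfl⟩ := mem_dnN.1 hs
    rcases j with _ | j
    · left; rfl
    · right
      refine mem_dnN.2 ⟨j, by rw [len_ch] at hj; omega, rfl⟩
  · rintro (rfl | hs)
    · exact mem_dnN.2 ⟨0, Nat.zero_le _, rfl⟩
    · obtain ⟨j, hj, rfl⟩ := mem_dnN.1 hs
      exact mem_dnN.2 ⟨j + 1, by rw [len_ch]; omega, rfl⟩

/-- finitely supported elements -/
noncomputable def fs (b : Nd →₀ ℝ) : XX := FNorm.Sp.mk b (by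
  obtain ⟨C, hC1, hC2⟩ := FNorm.rho_fin_le (P := tr.fnorm) b.support
  refine ne_top_of_le_ne_top ?_ (hC2 (fun n => ‖b n‖ₑ) fun n hn => by
    rw [Finsupp.notMem_support_iff.1 hn, enorm_zero])
  exact ENNReal.sum_ne_top.2 fun n _ => ENNReal.mul_ne_top (hC1 n) enorm_ne_top)

@[simp] lemma fs_val (b : Nd →₀ ℝ) (n : Nd) : (fs b).val n = b n := rfl

lemma fs_add (b c : Nd →₀ ℝ) : fs (b + c) = fs b + fs c := FNorm.Sp.ext' rfl

/-- the indicator of a finite set -/
noncomputable def ind (A : Finset Nd) : Nd →₀ ℝ :=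
  Finsupp.onFinset A (fun n => if n ∈ A then 1 else 0) (by
    intro n hn
    by_contra h
    exact hn (if_neg h))

lemma ind_apply (A : Finset Nd) (n : Nd) : ind A n = if n ∈ A then 1 else 0 := rfl

/-- the norm of sums over children -/
lemma norm_children (t : Nd) (h : len t < t.1.1) (A : Finset ℕ) :
    ‖fs (ind (A.image (ch t h)))‖ ^ 2 ≤ 2 + A.card := by
  have h1 : ‖fs (ind (A.image (ch t h)))‖ₑ ^ 2 ≤ 2 + A.card := by
    rw [TreeS.enorm_X, L2_sq]
    have hM : ∀ s, tr.mM (fs (ind (A.image (ch t h)))) s ≤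
        if s ∈ tr.dn t ∪ A.image (ch t h) then 1 else 0 := by
      intro s
      refine tr.M_le fun v => ?_
      by_cases hex : ∃ n ∈ A, ch t h n ∈ tr.seg s v
      · obtain ⟨n, hn, hnv⟩ := hex
        have hs : s ∈ tr.dn t ∪ A.image (ch t h) := by
          rw [Finset.mem_union, Finset.mem_image]
          rcases mem_dn_ch.1 (tr.mem_seg.1 hnv).2 with h2 | h2
          · right; exact ⟨n, hn, h2.symm⟩
          · left; exact h2
        rw [if_pos hs, Finset.sum_eq_single_of_mem _ hnv]
        · rw [fs_val, ind_apply]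
          split_ifs <;> simp
        · intro u hu hun
          rw [fs_val, ind_apply, if_neg, enorm_zero]
          intro hu2
          obtain ⟨m, hm, rfl⟩ := Finset.mem_image.1 hu2
          -- two different children of `t` are incomparable
          rcases tr.chain (tr.mem_seg.1 hu).1 (tr.mem_seg.1 hnv).1 with h2 | h2
          · rcases mem_dn_ch.1 h2 with h3 | h3
            · exact hun h3
            · obtain ⟨j, hj, h4⟩ := mem_dnN.1 h3
              have h5 := congrArg len h4
              rw [len_dropN, len_ch] at h5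
              omega
          · rcases mem_dn_ch.1 h2 with h3 | h3
            · exact hun h3.symm
            · obtain ⟨j, hj, h4⟩ := mem_dnN.1 h3
              have h5 := congrArg len h4
              rw [len_dropN, len_ch] at h5
              omega
      · push Not at hex
        rw [Finset.sum_eq_zero]
        · exact bot_le
        · intro u hu
          rw [fs_val, ind_apply, if_neg, enorm_zero]
          intro hu2
          obtain ⟨m, hm, rfl⟩ := Finset.mem_image.1 hu2
          exact hex m hm hu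
    calc ∑' s, (ENNReal.ofReal (tr.w s) * tr.mM (fs (ind (A.image (ch t h)))) s) ^ 2
        ≤ ∑' s, if s ∈ tr.dn t ∪ A.image (ch t h) then (ENNReal.ofReal (tr.w s)) ^ 2 else 0 := by
          refine ENNReal.tsum_le_tsum fun s => ?_
          have h2 := hM s
          split_ifs at h2 ⊢ with h3
          · rw [mul_pow]
            calc (ENNReal.ofReal (tr.w s)) ^ 2 * (tr.mM (fs (ind (A.image (ch t h)))) s) ^ 2
                ≤ (ENNReal.ofReal (tr.w s)) ^ 2 * 1 ^ 2 := by gcongr
              _ = _ := by rw [one_pow, mul_one]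
          · rw [le_antisymm h2 bot_le, mul_zero]
            exact (zero_pow two_ne_zero).le
      _ = ∑ s ∈ tr.dn t ∪ A.image (ch t h), (ENNReal.ofReal (tr.w s)) ^ 2 := by
          rw [tsum_eq_sum (s := tr.dn t ∪ A.image (ch t h)) fun s hs => if_neg hs]
          exact Finset.sum_congr rfl fun s hs => if_pos hs
      _ ≤ ∑ s ∈ tr.dn t, (ENNReal.ofReal (tr.w s)) ^ 2 +
            ∑ s ∈ A.image (ch t h), (ENNReal.ofReal (tr.w s)) ^ 2 :=
          le_self_add.trans_eq Finset.sum_union_inter
      _ ≤ 2 + A.card := by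
          gcongr
          · exact tr.sum_w t
          · calc ∑ s ∈ A.image (ch t h), (ENNReal.ofReal (tr.w s)) ^ 2
                ≤ ∑ s ∈ A.image (ch t h), 1 := by
                  refine Finset.sum_le_sum fun s _ => ?_
                  refine pow_le_one' ?_ 2
                  rw [← ENNReal.ofReal_one]
                  refine ENNReal.ofReal_le_ofReal ?_
                  exact pow_le_one₀ (by norm_num) (by norm_num)
              _ ≤ A.card := by
                  rw [Finset.sum_const, nsmul_eq_mul, mul_one]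
                  exact_mod_cast Finset.card_image_le
  have h2 := ENNReal.toReal_mono (by
    exact ENNReal.add_ne_top.2 ⟨by norm_num, ENNReal.natCast_ne_top _⟩) h1
  rw [ENNReal.toReal_pow, toReal_enorm, ENNReal.toReal_add (by norm_num)
    (ENNReal.natCast_ne_top _)] at h2
  simpa using h2

/-- unit vectors -/
noncomputable def un (t : Nd) : XX := fs (ind {t})

lemma norm_un (t : Nd) : ‖un t‖ ≤ 2 := by
  have h1 : ‖un t‖ₑ ≤ 2 := by
    rw [TreeS.enorm_X, L2_le_iff]
    have hM : ∀ s, tr.mM (un t) s ≤ if s ∈ tr.dn t then 1 else 0 := by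
      intro s
      refine (tr.M_supp (n := t) (fun m hm => ?_) s).trans ?_
      · rw [un, fs_val, ind_apply, if_neg (by simpa using hm), enorm_zero]
      · split_ifs
        · rw [un, fs_val, ind_apply, if_pos (Finset.mem_singleton_self t)]
          simp
        · exact le_rfl
    calc ∑' s, (ENNReal.ofReal (tr.w s) * tr.mM (un t) s) ^ 2
        ≤ ∑' s, if s ∈ tr.dn t then (ENNReal.ofReal (tr.w s)) ^ 2 else 0 := by
          refine ENNReal.tsum_le_tsum fun s => ?_
          have h2 := hM s
          split_ifs at h2 ⊢ with h3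
          · rw [mul_pow]
            calc (ENNReal.ofReal (tr.w s)) ^ 2 * (tr.mM (un t) s) ^ 2
                ≤ (ENNReal.ofReal (tr.w s)) ^ 2 * 1 ^ 2 := by gcongr
              _ = _ := by rw [one_pow, mul_one]
          · rw [le_antisymm h2 bot_le, mul_zero]
            exact (zero_pow two_ne_zero).le
      _ = ∑ s ∈ tr.dn t, (ENNReal.ofReal (tr.w s)) ^ 2 := by
          rw [tsum_eq_sum (s := tr.dn t) fun s hs => if_neg hs]
          exact Finset.sum_congr rfl fun s hs => if_pos hs
      _ ≤ 2 := tr.sum_w t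
      _ ≤ 2 ^ 2 := by norm_num
  have h2 := ENNReal.toReal_mono (by norm_num) h1
  simpa using h2

lemma fs_children (t : Nd) (h : len t < t.1.1) (A : Finset ℕ) :
    fs (ind (A.image (ch t h))) = ∑ n ∈ A, un (ch t h n) := by
  induction A using Finset.induction_on with
  | empty =>
    rw [Finset.image_empty, Finset.sum_empty]
    refine FNorm.Sp.ext' (funext fun u => ?_)
    rw [fs_val, ind_apply]
    simp
  | insert m A hm ih =>
    rw [Finset.sum_insert hm, ← ih]
    refine FNorm.Sp.ext' (funext fun u => ?_)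
    rw [FNorm.Sp.val_add, Pi.add_apply, un, fs_val, fs_val, fs_val, ind_apply, ind_apply,
      ind_apply, Finset.image_insert]
    by_cases h1 : u = ch t h m
    · have h2 : u ∉ A.image (ch t h) := by
        intro h3
        obtain ⟨j, hj, h4⟩ := Finset.mem_image.1 h3
        rw [h1] at h4
        exact hm (ch_inj h4 ▸ hj)
      rw [if_pos (Finset.mem_insert.2 (Or.inl h1)), if_pos (Finset.mem_singleton.2 h1),
        if_neg h2, add_zero]
    · rw [if_neg (fun h3 => h1 (Finset.mem_singleton.1 h3)), zero_add]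
      congr 1
      simp [h1]

/-- children come close to closed subspaces of finite codimension -/
lemma child_close (t : Nd) (h : len t < t.1.1) (W : Submodule ℝ XX) (hW : IsClosed (W : Set XX))
    (hfd : FiniteDimensional ℝ (XX ⧸ W)) {η : ℝ} (hη : 0 < η) :
    ∃ n, ∃ y ∈ W, ‖un (ch t h n) - y‖ ≤ η := by
  by_contra hcon
  push Not at hcon
  have : IsClosed (W : Set XX) := hW
  have : ProperSpace (XX ⧸ W) := FiniteDimensional.proper_real _
  set x : ℕ → XX ⧸ W := fun n => Submodule.Quotient.mk (un (ch t h n)) with hx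
  have hge : ∀ n, η ≤ ‖x n‖ := by
    intro n
    by_contra hlt
    push Not at hlt
    obtain ⟨m, hm1, hm2⟩ := Submodule.Quotient.norm_mk_lt (x n) (sub_pos.2 hlt)
    rw [add_sub_cancel] at hm2
    have h1 : un (ch t h n) - m ∈ W := by
      rw [← Submodule.Quotient.mk_eq_zero, Submodule.Quotient.mk_sub, hm1, sub_self]
    have h2 := hcon n _ h1
    rw [sub_sub_cancel] at h2
    linarith
  have hle : ∀ n, x n ∈ Metric.closedBall (0 : XX ⧸ W) 2 := by
    intro n
    rw [mem_closedBall_zero_iff]
    exact (Submodule.Quotient.norm_mk_le W _).trans (norm_un _)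
  obtain ⟨a, -, φ, hφ, ha⟩ := tendsto_subseq_of_bounded Metric.isBounded_closedBall hle
  have ha1 : η ≤ ‖a‖ := ge_of_tendsto' ha.norm fun n => hge _
  rw [Metric.tendsto_atTop] at ha
  obtain ⟨K, hK⟩ := ha (η / 2) (by positivity)
  obtain ⟨m, hm⟩ := exists_nat_gt (12 / η ^ 2)
  have hm0 : (0 : ℝ) < m := lt_of_le_of_lt (by positivity) hm
  set A : Finset ℕ := (Finset.Ico K (K + m)).image φ with hA
  have hAc : A.card = m := by
    rw [hA, Finset.card_image_of_injective _ hφ.injective, Nat.card_Ico]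
    omega
  have h1 : ‖∑ n ∈ A, x n‖ ≤ ‖fs (ind (A.image (ch t h)))‖ := by
    rw [fs_children]
    have e : ∑ n ∈ A, x n = Submodule.Quotient.mk (∑ n ∈ A, un (ch t h n)) := by
      rw [hx]
      exact (map_sum W.mkQ _ _).symm
    rw [e]
    exact Submodule.Quotient.norm_mk_le W _
  have h2 : (m : ℝ) * (η / 2) ≤ ‖∑ n ∈ A, x n‖ := by
    have h3 : ∑ n ∈ A, x n = (m : ℝ) • a + ∑ n ∈ A, (x n - a) := by
      rw [Finset.sum_sub_distrib, Finset.sum_const, hAc, ← Nat.cast_smul_eq_nsmul ℝ]
      abel
    have h4 : ‖∑ n ∈ A, (x n - a)‖ ≤ m * (η / 2) := by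
      refine (norm_sum_le _ _).trans ?_
      calc ∑ n ∈ A, ‖x n - a‖ ≤ ∑ _n ∈ A, η / 2 := by
            refine Finset.sum_le_sum fun n hn => ?_
            obtain ⟨j, hj, rfl⟩ := Finset.mem_image.1 hn
            have := hK j (Finset.mem_Ico.1 hj).1
            rw [dist_eq_norm] at this
            exact this.le
        _ = m * (η / 2) := by rw [Finset.sum_const, hAc, nsmul_eq_mul]
    have h5 : ‖(m : ℝ) • a‖ ≤ ‖∑ n ∈ A, x n‖ + ‖∑ n ∈ A, (x n - a)‖ := by
      rw [h3]
      have := norm_sub_le ((m : ℝ) • a + ∑ n ∈ A, (x n - a)) (∑ n ∈ A, (x n - a))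
      rwa [add_sub_cancel_right] at this
    rw [norm_smul, Real.norm_of_nonneg hm0.le] at h5
    have h6 : (m : ℝ) * η ≤ m * ‖a‖ := by gcongr
    linarith
  have h3 := norm_children t h A
  rw [hAc] at h3
  have h4 : ((m : ℝ) * (η / 2)) ^ 2 ≤ 2 + m := by
    refine le_trans ?_ h3
    gcongr
    exact h2.trans h1
  have hm1 : (1 : ℝ) ≤ m := by
    have : 0 < m := by exact_mod_cast hm0
    exact_mod_cast this
  have h5 : 12 < m * η ^ 2 := by rwa [div_lt_iff₀ (by positivity)] at hm
  nlinarith

end Pool.Agent.W696.AU
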