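import Mathlib
import Pool.Agent.W696.AU.Conc

/-!
The space `XX` has no equivalent asymptotically uniformly smooth norm.
-/
set_option autoImplicit false
open scoped ENNReal
open Finset Filter Topology

namespace Pool.Agent.W696.AU

/-- sums over initial segments -/
noncomputable def xs (t : Nd) : XX := fs (ind (tr.dn t))

lemma xs_ch (t : Nd) (h : len t < t.1.1) (n : ℕ) : xs (ch t h n) = xs t + un (ch t h n) := by
  refine FNorm.Sp.ext' (funext fun u => ?_)
  rw [FNorm.Sp.val_add, Pi.add_apply, xs, xs, un, fs_val, fs_val, fs_val, ind_apply, ind_apply,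
    ind_apply]
  by_cases h1 : u = ch t h n
  · have h2 : u ∉ tr.dn t := by
      intro h3
      obtain ⟨j, hj, h4⟩ := mem_dnN.1 (show u ∈ dnN t from h3)
      have h5 := congrArg len h4
      rw [len_dropN, h1, len_ch] at h5
      omega
    rw [if_pos (mem_dn_ch.2 (Or.inl h1)), if_neg h2, if_pos (Finset.mem_singleton.2 h1), zero_add]
  · rw [if_neg (fun h3 => h1 (Finset.mem_singleton.1 h3)), add_zero]
    by_cases h2 : u ∈ tr.dn t
    · rw [if_pos h2, if_pos (mem_dn_ch.2 (Or.inr h2))]
    · rw [if_neg h2, if_neg]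
      intro h3
      rcases mem_dn_ch.1 h3 with h4 | h4
      · exact h1 h4
      · exact h2 h4

lemma norm_xs_le (k : ℕ) (l : List ℕ) (hl : l.length ≤ k) :
    ‖xs ⟨(k, l), hl⟩‖ ≤ 2 * (l.length + 1) := by
  induction l with
  | nil =>
    have h1 : xs ⟨(k, []), hl⟩ = un ⟨(k, []), hl⟩ := by
      unfold xs un
      congr 2
    rw [h1]
    refine (norm_un _).trans ?_
    simp
  | cons n l ih =>
    have hl' : l.length < k := by
      rw [List.length_cons] at hl
      omega
    have hl2 : len ⟨(k, l), hl'.le⟩ < k := hl'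
    have h1 : xs ⟨(k, n :: l), hl⟩ = xs ⟨(k, l), hl'.le⟩ + un (ch ⟨(k, l), hl'.le⟩ hl2 n) :=
      xs_ch ⟨(k, l), hl'.le⟩ hl2 n
    rw [h1]
    have h2 := ih hl'.le
    have h3 := norm_un (ch ⟨(k, l), hl'.le⟩ hl2 n)
    have h4 := norm_add_le (xs ⟨(k, l), hl'.le⟩) (un (ch ⟨(k, l), hl'.le⟩ hl2 n))
    rw [List.length_cons]
    push_cast
    linarith

lemma card_dn (t : Nd) : (tr.dn t).card = len t + 1 := by
  show (dnN t).card = len t + 1
  unfold dnN
  rw [Finset.card_image_of_injOn (dropN_injOn t), Finset.card_range]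

/-- the root -/
def rt (t : Nd) : Nd := ⟨(t.1.1, []), Nat.zero_le _⟩

lemma rt_mem (t : Nd) : rt t ∈ dnN t := by
  refine mem_dnN.2 ⟨len t, le_rfl, ?_⟩
  unfold dropN rt len
  simp

lemma le_norm_xs (t : Nd) : (len t : ℝ) + 1 ≤ ‖xs t‖ := by
  have h1 : ((len t + 1 : ℕ) : ℝ≥0∞) ≤ ‖xs t‖ₑ := by
    rw [TreeS.enorm_X]
    refine le_trans ?_ (le_L2 _ (rt t))
    have hw : ENNReal.ofReal (tr.w (rt t)) = 1 := by
      show ENNReal.ofReal ((1 / 2) ^ len (rt t)) = 1
      simp [rt, len]
    show _ ≤ ENNReal.ofReal (tr.w (rt t)) * tr.mM (xs t) (rt t)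
    rw [hw, one_mul]
    refine le_trans ?_ (tr.sum_le_M _ (rt t) t)
    have h2 : tr.seg (rt t) t = tr.dn t := by
      ext u
      rw [TreeS.mem_seg]
      refine ⟨fun h => h.1, fun h => ⟨h, ?_⟩⟩
      have h3 : rt t = rt u := by
        have h4 : u.1.1 = t.1.1 := tr.ht_eq h
        unfold rt
        refine Subtype.ext ?_
        show ((t.1.1, []) : ℕ × List ℕ) = (u.1.1, [])
        rw [h4]
      rw [h3]
      exact rt_mem u
    rw [h2]
    have h3 : ∀ u ∈ tr.dn t, ‖(xs t).val u‖ₑ = 1 := by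
      intro u hu
      rw [xs, fs_val, ind_apply, if_pos hu]
      simp
    rw [Finset.sum_congr rfl h3, Finset.sum_const, card_dn, nsmul_eq_mul, mul_one]
  have h2 := ENNReal.toReal_mono enorm_ne_top h1
  rw [toReal_enorm, ENNReal.toReal_natCast] at h2
  push_cast at h2
  exact h2

/-- no equivalent norm is asymptotically uniformly smooth -/
theorem not_aus (N : XX → ℝ) (hadd : ∀ x y, N (x + y) ≤ N x + N y)
    (hsm : ∀ (r : ℝ) (x : XX), N (r • x) = |r| * N x) {c C : ℝ} (hc : 0 < c)
    (hcC : ∀ x, c * ‖x‖ ≤ N x ∧ N x ≤ C * ‖x‖)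
    (haus : ∀ ε : ℝ, 0 < ε → ∃ δ : ℝ, 0 < δ ∧ ∀ t : ℝ, 0 < t → t < δ → ∀ x : XX, N x = 1 →
      ∃ W : Submodule ℝ XX, IsClosed (W : Set XX) ∧ FiniteDimensional ℝ (XX ⧸ W) ∧
        ∀ y ∈ W, N y ≤ t → N (x + y) ≤ 1 + ε * t) : False := by
  -- a larger constant
  obtain ⟨D, hD, hcD, hND⟩ : ∃ D : ℝ, 0 < D ∧ c ≤ D ∧ ∀ x, N x ≤ D * ‖x‖ := by
    refine ⟨|C| + c, by positivity, by linarith [abs_nonneg C], fun x => ?_⟩
    refine (hcC x).2.trans ?_
    have := le_abs_self C
    gcongr
    linarith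
  have hN0 : ∀ x, 0 ≤ N x := fun x => le_trans (by positivity) (hcC x).1
  have hneg : ∀ x, N (-x) = N x := by
    intro x
    have := hsm (-1) x
    simpa using this
  set ε : ℝ := c / (12 * D) with hε
  have hε0 : 0 < ε := by positivity
  set η : ℝ := c / (4 * D) with hη
  have hη0 : 0 < η := by positivity
  have hη1 : η ≤ 1 := by
    rw [hη, div_le_one (by positivity)]
    linarith
  have hDη : D * η = c / 4 := by
    rw [hη]; field_simp
  have hDε : ε * (3 * D) = c / 4 := by
    rw [hε]; field_simp; ring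
  obtain ⟨δ, hδ0, hδ⟩ := haus ε hε0
  -- one step
  have step : ∀ (t : Nd) (h : len t < t.1.1), 3 * D / δ < c * (len t + 1) →
      ∃ n, N (xs (ch t h n)) ≤ N (xs t) + c / 2 := by
    intro t h ht
    set R := N (xs t) with hR
    have hR1 : c * (len t + 1) ≤ R := by
      refine le_trans ?_ (hcC _).1
      gcongr
      exact le_norm_xs t
    have hR0 : 0 < R := lt_of_lt_of_le (by positivity) hR1
    have hRδ : 3 * D / R < δ := by
      rw [div_lt_iff₀ hR0]
      rw [div_lt_iff₀ hδ0] at ht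
      nlinarith
    obtain ⟨W, hW1, hW2, hW3⟩ := hδ (3 * D / R) (by positivity) hRδ ((1 / R) • xs t) (by
      rw [hsm, abs_of_pos (by positivity), ← hR]
      field_simp)
    obtain ⟨n, y, hy, hyn⟩ := child_close t h W hW1 hW2 hη0
    have hNr : N (un (ch t h n) - y) ≤ c / 4 := by
      refine (hND _).trans ?_
      rw [← hDη]
      gcongr
    have hNy : N y ≤ 3 * D := by
      have e : y = un (ch t h n) + -(un (ch t h n) - y) := by abel
      have h1 : N y ≤ N (un (ch t h n)) + N (-(un (ch t h n) - y)) := by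
        conv_lhs => rw [e]
        exact hadd _ _
      rw [hneg] at h1
      have h2 : N (un (ch t h n)) ≤ D * 2 := (hND _).trans (by gcongr; exact norm_un _)
      linarith
    have h1 := hW3 ((1 / R) • y) (W.smul_mem _ hy) (by
      rw [hsm, abs_of_pos (by positivity), div_mul_eq_mul_div, one_mul]
      gcongr)
    rw [← smul_add, hsm, abs_of_pos (by positivity)] at h1
    have h2 : N (xs t + y) ≤ R + c / 4 := by
      have h3 : N (xs t + y) = R * (1 / R * N (xs t + y)) := by field_simp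
      rw [h3]
      calc R * (1 / R * N (xs t + y)) ≤ R * (1 + ε * (3 * D / R)) := by gcongr
        _ = R + ε * (3 * D) := by field_simp
        _ = R + c / 4 := by rw [hDε]
    refine ⟨n, ?_⟩
    rw [xs_ch]
    have e : xs t + un (ch t h n) = (xs t + y) + (un (ch t h n) - y) := by abel
    rw [e]
    have h3 := hadd (xs t + y) (un (ch t h n) - y)
    linarith
  obtain ⟨m, hm⟩ := exists_nat_gt (3 * D / δ / c)
  have hm' : 3 * D / δ < c * (m + 1) := by
    rw [div_lt_iff₀ hc] at hm
    nlinarith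
  -- the induction
  have ind : ∀ k j : ℕ, m + j ≤ k → ∃ t : Nd, t.1.1 = k ∧ len t = m + j ∧
      N (xs t) ≤ 2 * D * (m + 1) + j * (c / 2) := by
    intro k j
    induction j with
    | zero =>
      intro hk
      refine ⟨⟨(k, List.replicate m 0), by simpa using hk⟩, rfl, by simp [len], ?_⟩
      refine (hND _).trans ?_
      have h1 := norm_xs_le k (List.replicate m 0) (by simpa using hk)
      have h2 := mul_le_mul_of_nonneg_left h1 hD.le
      have h4 : (((List.replicate m 0).length : ℕ) : ℝ) = m := by simp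
      rw [h4] at h2
      push_cast
      linarith
    | succ j ih =>
      intro hk
      obtain ⟨t, ht1, ht2, ht3⟩ := ih (by omega)
      have h : len t < t.1.1 := by omega
      obtain ⟨n, hn⟩ := step t h (by
        refine hm'.trans_le ?_
        rw [ht2]
        push_cast
        have : (0 : ℝ) ≤ j := Nat.cast_nonneg j
        nlinarith)
      refine ⟨ch t h n, ht1, by rw [len_ch]; omega, hn.trans ?_⟩
      push_cast
      linarith
  obtain ⟨j, hj⟩ := exists_nat_gt (4 * D * (m + 1) / c)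
  obtain ⟨t, ht1, ht2, ht3⟩ := ind (m + j) j le_rfl
  have h1 := le_norm_xs t
  have h2 := (hcC (xs t)).1
  have h3 : c * (m + j + 1) ≤ N (xs t) := by
    refine le_trans ?_ h2
    gcongr
    rw [ht2] at h1
    push_cast at h1
    exact h1
  rw [div_lt_iff₀ hc] at hj
  have hm0 : (0 : ℝ) ≤ m := Nat.cast_nonneg m
  nlinarith [mul_nonneg hc.le hm0]

end Pool.Agent.W696.AU
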