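import Mathlib
import Pool.Agent.W696.AU.LpR

/-!
Asymptotic uniform smoothness of `lp` sums.
-/
set_option autoImplicit false
open Filter Topology
open scoped ENNReal

namespace Pool.Agent.W696.AU

/-- an asymptotic upper `ℓ₂` estimate with constant one -/
def Upp (E : Type) [NormedAddCommGroup E] [NormedSpace ℝ E] : Prop :=
  ∀ (u : E) (η : ℝ), 0 < η → ∃ W : Submodule ℝ E, IsClosed (W : Set E) ∧
    FiniteDimensional ℝ (E ⧸ W) ∧ ∀ y ∈ W, ‖u + y‖ ≤ η + Real.sqrt (‖u‖ ^ 2 + ‖y‖ ^ 2)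

/-- asymptotic uniform smoothness of the norm -/
def AUS (E : Type) [NormedAddCommGroup E] [NormedSpace ℝ E] : Prop :=
  ∀ ε : ℝ, 0 < ε → ∃ δ : ℝ, 0 < δ ∧ ∀ t : ℝ, 0 < t → t < δ → ∀ x : E, ‖x‖ = 1 →
    ∃ W : Submodule ℝ E, IsClosed (W : Set E) ∧ FiniteDimensional ℝ (E ⧸ W) ∧
      ∀ y ∈ W, ‖y‖ ≤ t → ‖x + y‖ ≤ 1 + ε * t

lemma Upp.aus {E : Type} [NormedAddCommGroup E] [NormedSpace ℝ E] (h : Upp E) : AUS E := by
  intro ε hε
  refine ⟨ε, hε, fun t ht htε x hx => ?_⟩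
  obtain ⟨W, hW1, hW2, hW⟩ := h x (ε * t / 2) (by positivity)
  refine ⟨W, hW1, hW2, fun y hy hyt => (hW y hy).trans ?_⟩
  have h1 : Real.sqrt (‖x‖ ^ 2 + ‖y‖ ^ 2) ≤ 1 + t ^ 2 / 2 := by
    rw [hx, Real.sqrt_le_left (by positivity)]
    have h2 : ‖y‖ ^ 2 ≤ t ^ 2 := by gcongr
    nlinarith [sq_nonneg (t ^ 2)]
  nlinarith

section inner

variable {I : Type} [DecidableEq I] {q : ℕ} [hq1 : Fact (1 ≤ (q : ℝ≥0∞))]

lemma pow_add_le {a b c : ℝ} (ha : 0 ≤ a) (hb : 0 ≤ b) (hq : 2 ≤ q)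
    (h : c ^ q = a ^ q + b ^ q) : c ≤ Real.sqrt (a ^ 2 + b ^ 2) := by
  have h1 : a ≤ Real.sqrt (a ^ 2 + b ^ 2) := by
    refine Real.le_sqrt_of_sq_le ?_
    nlinarith [sq_nonneg b]
  have h2 : b ≤ Real.sqrt (a ^ 2 + b ^ 2) := by
    refine Real.le_sqrt_of_sq_le ?_
    nlinarith [sq_nonneg a]
  set s := Real.sqrt (a ^ 2 + b ^ 2) with hs
  have hs0 : 0 ≤ s := Real.sqrt_nonneg _
  have hs2 : s ^ 2 = a ^ 2 + b ^ 2 := Real.sq_sqrt (by positivity)
  obtain ⟨k, rfl⟩ : ∃ k, q = k + 2 := ⟨q - 2, by omega⟩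
  refine le_of_pow_le_pow_left₀ (n := k + 2) (by omega) hs0 ?_
  rw [h, pow_add, pow_add, pow_add s]
  calc a ^ k * a ^ 2 + b ^ k * b ^ 2 ≤ s ^ k * a ^ 2 + s ^ k * b ^ 2 := by gcongr
    _ = s ^ k * s ^ 2 := by rw [hs2]; ring

/-- inner spaces -/
lemma upp_inner (hq : 2 ≤ q) : Upp (lp (fun _ : I => ℝ) (q : ℝ≥0∞)) := by
  intro u η hη
  have hqt : (q : ℝ≥0∞) ≠ ∞ := ENNReal.natCast_ne_top q
  have hT := T_tendsto hqt u
  rw [Metric.tendsto_atTop] at hT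
  obtain ⟨S, hS⟩ := hT η hη
  have hS' : ‖u - T (fun _ : I => ℝ) (q : ℝ≥0∞) S u‖ ≤ η := by
    have := hS S le_rfl
    rw [dist_comm, dist_eq_norm] at this
    exact this.le
  set Tq := T (fun _ : I => ℝ) (q : ℝ≥0∞) S with hTq
  refine ⟨LinearMap.ker (ContinuousLinearMap.pi fun i : S =>
    lp.evalCLM ℝ (fun _ : I => ℝ) (q : ℝ≥0∞) (i : I)).toLinearMap,
    ContinuousLinearMap.isClosed_ker _, ?_, fun y hy => ?_⟩
  · exact LinearEquiv.finiteDimensional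
      (LinearMap.quotKerEquivRange (ContinuousLinearMap.pi fun i : S =>
        lp.evalCLM ℝ (fun _ : I => ℝ) (q : ℝ≥0∞) (i : I)).toLinearMap).symm
  · have hy0 : Tq y = 0 := by
      apply lp.ext
      funext i
      rw [hTq, T_coe]
      by_cases hi : i ∈ S
      · rw [if_pos hi]
        exact congrFun (LinearMap.mem_ker.1 hy) ⟨i, hi⟩
      · rw [if_neg hi]; rfl
    have hTT : Tq (Tq u) = Tq u := by
      rw [hTq, T_T, Finset.inter_self]
    have h1 := T_add hqt S (Tq u) y hTT hy0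
    rw [ENNReal.toReal_natCast] at h1
    simp only [Real.rpow_natCast] at h1
    have h2 := pow_add_le (norm_nonneg _) (norm_nonneg _) hq h1
    have h3 : ‖Tq u‖ ≤ ‖u‖ := T_le hqt S u
    calc ‖u + y‖ = ‖(u - Tq u) + (Tq u + y)‖ := by congr 1; abel
      _ ≤ ‖u - Tq u‖ + ‖Tq u + y‖ := norm_add_le _ _
      _ ≤ η + Real.sqrt (‖Tq u‖ ^ 2 + ‖y‖ ^ 2) := add_le_add hS' h2
      _ ≤ η + Real.sqrt (‖u‖ ^ 2 + ‖y‖ ^ 2) := by gcongr

end inner

section outer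

variable {I : Type} [DecidableEq I] {E : I → Type} [∀ i, NormedAddCommGroup (E i)]
  [∀ i, NormedSpace ℝ (E i)]

/-- outer sums -/
lemma upp_outer (hE : ∀ i, Upp (E i)) : Upp (lp E 2) := by
  intro u η hη
  have h2t : (2 : ℝ≥0∞) ≠ ∞ := by norm_num
  have hT := T_tendsto h2t u
  rw [Metric.tendsto_atTop] at hT
  obtain ⟨S, hS⟩ := hT (η / 2) (by positivity)
  have hS' : ‖u - T E 2 S u‖ ≤ η / 2 := by
    have := hS S le_rfl
    rw [dist_comm, dist_eq_norm] at this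
    exact this.le
  set η' : ℝ := η / (2 * (S.card + 1)) with hη'
  have hη'0 : 0 < η' := by positivity
  have hη'1 : (S.card : ℝ) * η' ≤ η / 2 := by
    rw [hη', mul_div_assoc', div_le_div_iff₀ (by positivity) (by positivity)]
    nlinarith
  choose W hW1 hW2 hW3 using fun i => hE i (u i) η' hη'0
  have := hW2
  let L : lp E 2 →ₗ[ℝ] ((i : S) → (E i ⧸ W i)) :=
    LinearMap.pi fun i : S => (W i).mkQ ∘ₗ (lp.evalCLM ℝ E 2 (i : I)).toLinearMap
  have hmem : ∀ y, y ∈ LinearMap.ker L ↔ ∀ i ∈ S, y i ∈ W i := by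
    intro y
    rw [LinearMap.mem_ker]
    constructor
    · intro h i hi
      have h1 := congrFun h ⟨i, hi⟩
      exact (Submodule.Quotient.mk_eq_zero _).1 h1
    · intro h
      funext i
      exact (Submodule.Quotient.mk_eq_zero _).2 (h i i.2)
  refine ⟨LinearMap.ker L, ?_, ?_, fun y hy => ?_⟩
  · have e : (LinearMap.ker L : Set (lp E 2)) =
        ⋂ i ∈ S, (lp.evalCLM ℝ E 2 i) ⁻¹' (W i : Set (E i)) := by
      ext y
      simp only [SetLike.mem_coe, hmem, Set.mem_iInter, Set.mem_preimage]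
      rfl
    rw [e]
    exact isClosed_biInter fun i _ => (hW1 i).preimage (lp.evalCLM ℝ E 2 i).continuous
  · exact LinearEquiv.finiteDimensional (LinearMap.quotKerEquivRange L).symm
  · rw [hmem] at hy
    set Q := ‖u‖ ^ 2 + ‖y‖ ^ 2 with hQ
    have hQ0 : 0 ≤ Q := by positivity
    set w := T E 2 S u + y with hw
    have htwo : ((2 : ℝ≥0∞)).toReal = ((2 : ℕ) : ℝ) := by norm_num
    have hsplit : ∀ z : lp E 2, ‖z‖ ^ 2 = ‖T E 2 S z‖ ^ 2 + ‖z - T E 2 S z‖ ^ 2 := by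
      intro z
      have := T_split h2t S z
      rw [htwo] at this
      simpa only [Real.rpow_natCast] using this
    have hpow : ∀ z : lp E 2, ‖T E 2 S z‖ ^ 2 = ∑ i ∈ S, ‖z i‖ ^ 2 := by
      intro z
      have := T_pow h2t S z
      rw [htwo] at this
      simpa only [Real.rpow_natCast] using this
    have hw1 : w - T E 2 S w = y - T E 2 S y := by
      rw [hw, map_add, T_T, Finset.inter_self]
      abel
    have hw2 : ∀ i ∈ S, w i = u i + y i := by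
      intro i hi
      rw [hw, lp.coeFn_add, Pi.add_apply, T_coe, if_pos hi]
    have hc : ∀ i ∈ S, ‖u i‖ ^ 2 + ‖y i‖ ^ 2 ≤ Q := by
      intro i _
      have h1 := lp.norm_apply_le_norm (p := 2) (by norm_num) u i
      have h2 := lp.norm_apply_le_norm (p := 2) (by norm_num) y i
      rw [hQ]
      gcongr
    have hterm : ∀ i ∈ S, ‖w i‖ ^ 2 ≤
        (‖u i‖ ^ 2 + ‖y i‖ ^ 2) + (2 * η' * Real.sqrt Q + η' ^ 2) := by
      intro i hi
      rw [hw2 i hi]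
      have h1 := hW3 i (y i) (hy i hi)
      have h2 : Real.sqrt (‖u i‖ ^ 2 + ‖y i‖ ^ 2) ≤ Real.sqrt Q := Real.sqrt_le_sqrt (hc i hi)
      have h3 : (Real.sqrt (‖u i‖ ^ 2 + ‖y i‖ ^ 2)) ^ 2 = ‖u i‖ ^ 2 + ‖y i‖ ^ 2 :=
        Real.sq_sqrt (by positivity)
      calc ‖u i + y i‖ ^ 2 ≤ (η' + Real.sqrt (‖u i‖ ^ 2 + ‖y i‖ ^ 2)) ^ 2 := by gcongr
        _ = (‖u i‖ ^ 2 + ‖y i‖ ^ 2) + (2 * η' * Real.sqrt (‖u i‖ ^ 2 + ‖y i‖ ^ 2) + η' ^ 2) := by
            rw [add_sq, h3]; ring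
        _ ≤ _ := by
            have h4 : 2 * η' * Real.sqrt (‖u i‖ ^ 2 + ‖y i‖ ^ 2) ≤ 2 * η' * Real.sqrt Q :=
              mul_le_mul_of_nonneg_left h2 (by linarith)
            linarith
    have hsum : ‖w‖ ^ 2 ≤ Q + S.card * (2 * η' * Real.sqrt Q + η' ^ 2) := by
      rw [hsplit w, hpow, hw1]
      calc ∑ i ∈ S, ‖w i‖ ^ 2 + ‖y - T E 2 S y‖ ^ 2
          ≤ ∑ i ∈ S, ((‖u i‖ ^ 2 + ‖y i‖ ^ 2) + (2 * η' * Real.sqrt Q + η' ^ 2)) +
              ‖y - T E 2 S y‖ ^ 2 := by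
            gcongr with i hi
            exact hterm i hi
        _ = ‖T E 2 S u‖ ^ 2 + (‖T E 2 S y‖ ^ 2 + ‖y - T E 2 S y‖ ^ 2) +
              S.card * (2 * η' * Real.sqrt Q + η' ^ 2) := by
            rw [hpow, hpow, Finset.sum_add_distrib, Finset.sum_add_distrib, Finset.sum_const,
              nsmul_eq_mul]
            ring
        _ ≤ Q + S.card * (2 * η' * Real.sqrt Q + η' ^ 2) := by
            rw [← hsplit y, hQ]
            gcongr
            exact T_le h2t S u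
    have hw3 : ‖w‖ ≤ Real.sqrt Q + S.card * η' := by
      refine le_of_pow_le_pow_left₀ two_ne_zero (add_nonneg (Real.sqrt_nonneg _)
        (mul_nonneg (Nat.cast_nonneg _) hη'0.le)) (hsum.trans ?_)
      have h4 : (Real.sqrt Q) ^ 2 = Q := Real.sq_sqrt hQ0
      have h5 : (S.card : ℝ) ≤ (S.card : ℝ) ^ 2 := by
        have : S.card ≤ S.card ^ 2 := Nat.le_self_pow two_ne_zero _
        exact_mod_cast this
      have h6 : (S.card : ℝ) * η' ^ 2 ≤ (S.card : ℝ) ^ 2 * η' ^ 2 :=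
        mul_le_mul_of_nonneg_right h5 (sq_nonneg _)
      nlinarith
    calc ‖u + y‖ = ‖(u - T E 2 S u) + w‖ := by rw [hw]; congr 1; abel
      _ ≤ ‖u - T E 2 S u‖ + ‖w‖ := norm_add_le _ _
      _ ≤ η / 2 + (Real.sqrt Q + η / 2) := by
          gcongr
          exact hw3.trans (by linarith)
      _ = η + Real.sqrt Q := by ring

end outer

end Pool.Agent.W696.AU
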