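import Mathlib
import Pool.Agent.W696.AU.NotAUS
import Pool.Agent.W696.AU.Glue
import Pool.Agent.W696.AU.Smooth

/-!
The target space `YY` and the coarse Lipschitz embedding of `XX` into it.
-/
set_option autoImplicit false
open scoped ENNReal
open Finset Filter Topology

namespace Pool.Agent.W696.AU

/-- the target -/
abbrev YY : Type := lp (fun n : ℕ => tr.Z n) 2

lemma real_reflexive : Function.Surjective (NormedSpace.inclusionInDoubleDual ℝ ℝ) := by
  intro Φ
  refine ⟨Φ (ContinuousLinearMap.id ℝ ℝ), ?_⟩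
  ext φ
  have e : φ = φ 1 • ContinuousLinearMap.id ℝ ℝ := by
    ext
    simp
  rw [NormedSpace.dual_def]
  conv_rhs => rw [e, map_smul]
  conv_lhs => rw [e]
  simp

lemma eb_reflexive (n : ℕ) (s : Nd) :
    Function.Surjective (NormedSpace.inclusionInDoubleDual ℝ (tr.EB n s)) := by
  refine lp_reflexive (ENNReal.natCast_ne_top _) ?_ fun _ => real_reflexive
  rw [ENNReal.toReal_natCast]
  have := qq_ge n (tr.ht s)
  exact_mod_cast (by omega : 1 < qq n (tr.ht s))

lemma z_reflexive (n : ℕ) :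
    Function.Surjective (NormedSpace.inclusionInDoubleDual ℝ (tr.Z n)) :=
  lp_reflexive (by norm_num) (by norm_num) fun s => eb_reflexive n s

lemma yy_reflexive : Function.Surjective (NormedSpace.inclusionInDoubleDual ℝ YY) :=
  lp_reflexive (by norm_num) (by norm_num) fun n => z_reflexive n

lemma yy_upp : Upp YY :=
  upp_outer fun n => upp_outer fun s => upp_inner (qq_ge n (tr.ht s))

lemma exists_unit : ∃ v : tr.Z 0, ‖v‖ = 1 := by
  have s : Nd := ⟨(0, []), le_rfl⟩
  have j : TreeS.Ix Nd := (s, ∅, 0, 0)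
  set a : tr.EB 0 s := lp.single _ j (1 : ℝ) with ha
  have ha1 : ‖a‖ = 1 := by
    rw [ha, lp.norm_single (by
      have := qq_ge 0 (tr.ht s)
      exact_mod_cast (by omega : 0 < qq 0 (tr.ht s)))]
    simp
  refine ⟨lp.single _ s a, ?_⟩
  rw [lp.norm_single (by norm_num), ha1]

theorem embedding : ∃ f : XX → YY, ∃ A B : ℝ, 0 < A ∧ 0 ≤ B ∧
    ∀ x x' : XX, ‖x - x'‖ / A - B ≤ ‖f x - f x'‖ ∧ ‖f x - f x'‖ ≤ A * ‖x - x'‖ + B := by
  obtain ⟨v, hv⟩ := exists_unit
  refine glue (E := fun n => tr.Z n) (v := v) (MM := fun n => tr.MM (n + 1)) (C := 2) (D := 256)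
    (by norm_num) (by norm_num) hv (fun n => tr.MM_zero (n + 1)) (fun n x y hx hy => ?_)
    (fun n x y => tr.le_MM_sub (n + 1) x y)
  have h : (2 : ℝ) ^ (n + 2) ≤ 2 ^ (n + 1 + 2) := pow_le_pow_right₀ one_le_two (by omega)
  exact tr.MM_sub_le (n + 1) x y (hx.trans h) (hy.trans h)

end Pool.Agent.W696.AU
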